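import Pool.Agent.Lib.MP_6e5bed_ag_CV.KFin

set_option autoImplicit false

/-!
# MP_6e5bed_ag, functor form: even operators
-/

namespace Pool.Agent.MP_6e5bed_ag_WF

open CategoryTheory MonoidalCategory Pool.Agent.MP_6e5bed_ag

universe v u

variable {C : Type u} [Category.{v} C] [MonoidalCategory C] [SymmetricCategory C]
    [Preadditive C] [MonoidalPreadditive C] [Linear ℚ C]

/-- The operator `e` on `M` is even. -/
def AltKill {M : C} (e : M ⟶ M) : Prop := ∃ r, altSum M r ≫ tmap e r = 0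

private theorem alt_unit : altSum (𝟙_ C) 2 = 0 := by
  have h1 : gSum (Units.coeHom ℤ) (𝟙_ C) 1 = 𝟙 _ := by
    unfold gSum
    rw [Fintype.sum_unique]
    change (Units.coeHom ℤ) (Equiv.Perm.sign 1) • ps (𝟙_ C) 1 = _
    rw [ps_one, map_one, map_one, one_smul]
  have h2 := gSum_succ (Units.coeHom ℤ) (𝟙_ C) 1
  have h3 : ps (𝟙_ C) (Equiv.swap (0 : Fin 2) (Fin.succ default)) = 𝟙 _ :=
    (ps_swap (𝟙_ C) 0).trans (sw_unit (C := C) _)
  have h4 : wl (𝟙_ C) (𝟙 (Pool.Agent.MP_6e5bed_ag.tpow (𝟙_ C) 1)) = 𝟙 _ :=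
    MonoidalCategory.whiskerLeft_id _ _
  rw [Fintype.sum_unique, h1, h3, h4, Category.comp_id] at h2
  change gSum (Units.coeHom ℤ) (𝟙_ C) 2 = 0
  rw [h2]
  simp

/-- (The braiding of `𝟙_ C ⊗ 𝟙_ C` is the identity, `altSum (𝟙_ C) 2 = 0`; `tmap_sandwich`,
`altSum_kill_sum`.) -/
theorem altKill_unit {M : C} {n : ℕ} (v : Fin n → (M ⟶ 𝟙_ C)) (x : Fin n → (𝟙_ C ⟶ M)) :
    AltKill (∑ i, v i ≫ x i) := by
  refine altSum_kill_sum _ fun i => ⟨2, ?_⟩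
  have h1 : v i ≫ x i = v i ≫ 𝟙 (𝟙_ C) ≫ x i := by rw [Category.id_comp]
  rw [h1]
  refine tmap_sandwich _ _ _ (altSum_nat _ _) ?_
  rw [alt_unit, Limits.zero_comp]

theorem altKill_iso {M M' : C} (φ : M ≅ M') {e : M ⟶ M} (h : AltKill e) :
    AltKill (φ.inv ≫ e ≫ φ.hom) := by
  obtain ⟨r, hr⟩ := h
  exact ⟨r, tmap_sandwich _ _ _ (altSum_nat _ _) hr⟩

/-- A direct summand `M` of `X` is even if the projector is even. (`altSum_nat`, `isEven_iff`) -/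
theorem isEven_of_altKill {M X : C} {i : M ⟶ X} {r : X ⟶ M} (hir : i ≫ r = 𝟙 M)
    (h : AltKill (r ≫ i)) : IsEven M := by
  obtain ⟨n, hn⟩ := h
  exact (isEven_iff M).2 ⟨n, even_of_split hir rfl hn⟩

end Pool.Agent.MP_6e5bed_ag_WF
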