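import Pool.Agent.Lib.MP_6e5bed_ag_WF.Alt
import Pool.Agent.Lib.MP_6e5bed_ag_BC.BCFinal
import Pool.Agent.Lib.MP_6e5bed_ag_UD.Desc

set_option autoImplicit false

/-!
# MP_6e5bed_ag, functor form: descent of even operators
-/

noncomputable section

namespace Pool.Agent.MP_6e5bed_ag_WF

open CategoryTheory MonoidalCategory Pool.Agent.MP_6e5bed_ag Pool.Agent.MP_6e5bed_ag_NC
  Pool.Agent.MP_6e5bed_ag_UD

universe u

variable {k : Type u} [Field k] {L : Type u} [Field L] [Algebra k L]

/-- Extension of the base field is injective on `K_0(-)_ℚ`. (If `cf x = 0` over `L` then `cf x = 0`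
over a finitely generated subalgebra `U` of `L`, `K0Q.cf_zero` with `S = ⊥` or as in the proof of
`mem_JB_of_field` in `UD/Desc.lean`; `U` has a point over a finite extension of `k`, `exists_point` in
`BC/BCFinal.lean` or `exists_finite_point`; the transfer `K0Q.tr_cf` for finite extensions, as in
`coDesc_inj` in `BC/CODesc.lean`.) -/
theorem cf_inj_field {A B : DGA k} (x : K0Q (A.bc k) (B.bc k))
    (h : K0Q.cf (Algebra.ofId k L) x = 0) : x = 0 := by
  obtain ⟨S₀⟩ : Nonempty (FGS k L) := inferInstance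
  have h0 : K0Q.cf S₀.val (K0Q.cf (Algebra.ofId k S₀.1) x) = 0 := by
    rw [K0Q.cf_cf' (Algebra.ofId k S₀.1) S₀.val (Algebra.ofId k L) (fun r => S₀.val.commutes r)]
    exact h
  obtain ⟨T, hT, h1⟩ := K0Q.cf_zero _ h0
  obtain ⟨L', i1, i2, i3, i4, ⟨g⟩⟩ := exists_point T
  rw [K0Q.cf_cf' (Algebra.ofId k S₀.1) (FGS.inc hT) (Algebra.ofId k T.1)
    (fun r => (FGS.inc hT).commutes r)] at h1
  have h2 : K0Q.cf (Algebra.ofId k L') x = 0 := by
    rw [← K0Q.cf_cf' (Algebra.ofId k T.1) g (Algebra.ofId k L') (fun r => g.commutes r), h1,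
      map_zero]
  have h3 := K0Q.tr_cf (L := L') x
  rw [h2, map_zero] at h3
  have h4 : (Module.finrank k L' : ℚ) ≠ 0 := Nat.cast_ne_zero.2 Module.finrank_pos.ne'
  exact (smul_eq_zero.1 h3.symm).resolve_left h4

/-- Composition with isomorphisms is the restriction. -/
private theorem altD_sandwich {A B A' B' : SP k} (τ : DIso A'.alg A.alg) (τ' : DIso B'.alg B.alg)
    (h : A ⟶ B) : ofIso (A := A') (B := A) τ ≫ h ≫ ofIso (A := B) (B := B') τ'.symm =
      K0Q.res τ τ' h := by
  rw [comp_ofIso, ofIso_comp, K0Q.res_res, DIso.trans_refl]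
  rfl

/-- Extension of the base field is a faithful functor. -/
private theorem altD_faithful : (COF (Algebra.ofId k L)).Faithful where
  map_injective {X Y} f g h := by
    have h1 : K0Q.cf (Algebra.ofId k L) (A := X.of.alg) (B := Y.of.alg) (f - g) = 0 :=
      ((COF (Algebra.ofId k L)).map_sub (X := X) (Y := Y) (f := f) (g := g)).trans
        (sub_eq_zero.2 h)
    exact sub_eq_zero.1 (cf_inj_field (A := X.of.alg) (B := Y.of.alg) _ h1)

/-- Descent of even operators. (`COF (Algebra.ofId k L) : CO k k ⥤ CO k L` is faithful by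
`cf_inj_field`, additive and braided, `map_kill_alt`; `COJ k L : CO k L ⥤ SP L` and `COJ k k` are
full, faithful and braided; `mkIso (selfIso A.alg) : A.bc k ≅ A` and `altKill_iso`.) -/
theorem altKill_desc (A : SP k) (e : A ⟶ A)
    (h : AltKill (C := SP L) (M := A.bc L) (up L (B := A.alg) (C := A.alg) e)) : AltKill e := by
  obtain ⟨e', he'⟩ : ∃ e' : (⟨A⟩ : CO k k) ⟶ ⟨A⟩,
      e' = K0Q.res (selfIso A.alg) (selfIso A.alg) e := ⟨_, rfl⟩
  have hF : (COF (Algebra.ofId k L)).Faithful := altD_faithful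
  obtain ⟨r, hr⟩ := h
  have h1 : altSum ((COJ k L).obj ((COF (Algebra.ofId k L)).obj (⟨A⟩ : CO k k))) r ≫
      tmap ((COJ k L).map ((COF (Algebra.ofId k L)).map e')) r = 0 := by
    rw [he']
    exact hr
  have h2 := map_kill_alt (F := COJ k L) h1
  have h3 := map_kill_alt (F := COF (Algebra.ofId k L)) h2
  have h4 : altSum ((COJ k k).obj (⟨A⟩ : CO k k)) r ≫ tmap ((COJ k k).map e') r = 0 := by
    rw [← gSum_coe, ← map_kill_iff, gSum_coe, h3, Functor.map_zero]
  have h5 : AltKill (C := SP k) (M := A.bc k) ((COJ k k).map e') := ⟨r, h4⟩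
  have h6 := altKill_iso (mkIso (A := A.bc k) (B := A) (selfIso A.alg)) h5
  have h7 : (COJ k k).map e' = (mkIso (A := A.bc k) (B := A) (selfIso A.alg)).hom ≫ e ≫
      (mkIso (A := A.bc k) (B := A) (selfIso A.alg)).inv := by
    exact he'.trans (altD_sandwich (A := A) (B := A) (A' := A.bc k) (B' := A.bc k)
      (selfIso A.alg) (selfIso A.alg) e).symm
  rw [h7, Category.assoc, Category.assoc, Iso.inv_hom_id, Iso.inv_hom_id_assoc,
    Category.comp_id] at h6
  exact h6

end Pool.Agent.MP_6e5bed_ag_WF
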