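import Mathlib

set_option autoImplicit false

/-!
# MP_6e5bed_ag, functor form: extension of a functor to direct summands
-/

noncomputable section

namespace Pool.Agent.MP_6e5bed_ag_WF

open CategoryTheory

universe v u w w'

variable {C : Type u} [Category.{v} C] [Preadditive C] {G : Type w} (U : G → C) (V : G → Type w')
  [∀ g, AddCommGroup (V g)] [∀ g, Module ℚ (V g)]
  (ρ : ∀ {g g' : G}, (U g ⟶ U g') → V g →ₗ[ℚ] V g')

/-- A functor on the objects `U g` extends to a category all of whose objects are direct summands of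
objects `U g`. (Choose a presentation `i P : P ⟶ U (g P)`, `r P` for every `P`; let `K P` be the
submodule of the `x` in `V (g P)` with `ρ (r P ≫ i P) x = x`; the map `K f` is
`ρ (r P ≫ f ≫ i Q)`; `κ g x = ρ (i (U g)) x` with the inverse `ρ (r (U g))`.) -/
theorem exists_ext (h1 : ∀ g (x : V g), ρ (𝟙 (U g)) x = x)
    (h2 : ∀ {g g' g'' : G} (f : U g ⟶ U g') (f' : U g' ⟶ U g'') (x : V g),
      ρ (f ≫ f') x = ρ f' (ρ f x))
    (h3 : ∀ {g g' : G} (f f' : U g ⟶ U g') (x : V g), ρ (f + f') x = ρ f x + ρ f' x)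
    (hr : ∀ P : C, ∃ (g : G) (i : P ⟶ U g) (r : U g ⟶ P), i ≫ r = 𝟙 P) :
    ∃ (K : C ⥤ ModuleCat.{w'} ℚ) (κ : ∀ g, V g ≃ₗ[ℚ] K.obj (U g)), K.Additive ∧
      ∀ {g g' : G} (f : U g ⟶ U g') (x : V g), (K.map f).hom (κ g x) = κ g' (ρ f x) := by
  choose g i r hir using hr
  obtain ⟨M, hM⟩ : ∃ M : ∀ P : C, Submodule ℚ (V (g P)), ∀ (P : C) (x : V (g P)),
      x ∈ M P ↔ ρ (r P ≫ i P) x = x :=
    ⟨fun P => LinearMap.ker (ρ (r P ≫ i P) - LinearMap.id), fun P x => by
      rw [LinearMap.mem_ker, LinearMap.sub_apply, LinearMap.id_apply, sub_eq_zero]⟩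
  have hcan : ∀ (P : C) {X : C} (f : P ⟶ X), i P ≫ r P ≫ f = f := fun P X f => by
    rw [← Category.assoc, hir, Category.id_comp]
  have hmap : ∀ {P Q : C} (f : P ⟶ Q) (x : V (g P)), ρ (r P ≫ f ≫ i Q) x ∈ M Q := by
    intro P Q f x
    rw [hM, ← h2]
    simp only [Category.assoc, hcan]
  obtain ⟨F, hF⟩ : ∃ F : ∀ {P Q : C} (_ : P ⟶ Q), M P →ₗ[ℚ] M Q,
      ∀ {P Q : C} (f : P ⟶ Q) (x : M P), (F f x : V (g Q)) = ρ (r P ≫ f ≫ i Q) x :=
    ⟨fun {P Q} f => ((ρ (r P ≫ f ≫ i Q)).comp (M P).subtype).codRestrict (M Q)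
      (fun x => hmap f x), fun f x => rfl⟩
  have hid : ∀ P : C, F (𝟙 P) = LinearMap.id := by
    intro P
    refine LinearMap.ext fun x => Subtype.ext ?_
    rw [hF, Category.id_comp]
    exact (hM P x).1 x.2
  have hcomp : ∀ {P Q S : C} (f : P ⟶ Q) (f' : Q ⟶ S), F (f ≫ f') = (F f').comp (F f) := by
    intro P Q S f f'
    refine LinearMap.ext fun x => Subtype.ext ?_
    rw [LinearMap.comp_apply, hF, hF, hF, ← h2]
    simp only [Category.assoc, hcan]
  have hadd : ∀ {P Q : C} (f f' : P ⟶ Q), F (f + f') = F f + F f' := by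
    intro P Q f f'
    refine LinearMap.ext fun x => Subtype.ext ?_
    rw [LinearMap.add_apply, Submodule.coe_add, hF, hF, hF, ← h3]
    simp only [Preadditive.add_comp, Preadditive.comp_add]
  let K : C ⥤ ModuleCat.{w'} ℚ :=
    { obj := fun P => ModuleCat.of ℚ (M P)
      map := fun f => ModuleCat.ofHom (F f)
      map_id := fun P => by
        rw [hid]
        rfl
      map_comp := fun f f' => by
        rw [hcomp]
        rfl }
  have hκ : ∀ (a : G) (x : V a), ρ (i (U a)) x ∈ M (U a) := by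
    intro a x
    rw [hM, ← h2, hcan]
  have e1 : ∀ a, ((ρ (i (U a))).codRestrict (M (U a)) (hκ a)).comp
      ((ρ (r (U a))).comp (M (U a)).subtype) = LinearMap.id := fun a => by
    refine LinearMap.ext fun x => Subtype.ext ?_
    show ρ (i (U a)) (ρ (r (U a)) (x : V (g (U a)))) = x
    rw [← h2]
    exact (hM (U a) x).1 x.2
  have e2 : ∀ a, ((ρ (r (U a))).comp (M (U a)).subtype).comp
      ((ρ (i (U a))).codRestrict (M (U a)) (hκ a)) = LinearMap.id := fun a => by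
    refine LinearMap.ext fun x => ?_
    show ρ (r (U a)) (ρ (i (U a)) x) = x
    rw [← h2, hir, h1]
  let κ : ∀ a, V a ≃ₗ[ℚ] M (U a) := fun a => LinearEquiv.ofLinearMap _ _ (e1 a) (e2 a)
  refine ⟨K, κ, ⟨fun {P Q f f'} => ?_⟩, fun {a a'} f x => ?_⟩
  · show ModuleCat.ofHom (F (f + f')) = ModuleCat.ofHom (F f) + ModuleCat.ofHom (F f')
    rw [hadd]
    rfl
  · refine Subtype.ext ((hF f (κ a x)).trans ?_)
    show ρ (r (U a) ≫ f ≫ i (U a')) (ρ (i (U a)) x) = ρ (i (U a')) (ρ f x)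
    rw [← h2, ← h2, hcan]

end Pool.Agent.MP_6e5bed_ag_WF
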