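import Pool.Agent.Lib.MP_6e5bed_ag_WF.Kap
import Pool.Agent.Lib.MP_6e5bed_ag_WF.Ext

set_option autoImplicit false
set_option linter.unusedVariables false

/-!
# MP_6e5bed_ag, functor form: the functors `K_0(-_L)_ℚ` exist
-/

noncomputable section

namespace Pool.Agent.MP_6e5bed_ag_WF

open CategoryTheory MonoidalCategory MulOpposite Pool.Agent.MP_6e5bed_ag_NC
  Pool.Agent.MP_6e5bed_ag_WW Pool.Agent.MP_6e5bed_ag_UD
open Pool.Agent.MP_6e5bed_ag_Kf (K0Fun)
open Pool.Agent.MP_6e5bed_ag_SP (DG Bm Rep SmPr NCMot IsK0)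
open Pool.Agent.MP_6e5bed_ag_SP (isK0_cls IsTb)

universe u

variable {k : Type u} [Field k] {C : Type (u + 1)} [Category.{u + 1} C] [MonoidalCategory C]
  [SymmetricCategory C] [Preadditive C] [MonoidalPreadditive C] [Linear ℚ C] (H : NCMot k C)

/-- The smooth and proper dg algebras. -/
private structure ExG (k : Type u) [Field k] : Type (u + 1) where
  A : Type u
  ring : Ring A
  alg : Algebra k A
  X : DG k A
  hX : SmPr X

attribute [local instance] ExG.ring ExG.alg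

private theorem ex_transport {k A B : Type u} [Field k] [Ring A] [Algebra k A] [Ring B]
    [Algebra k B] {X : DG k A} {Y : DG k B} {V V' : Type (u + 1)} [AddCommGroup V] [Module ℚ V]
    [AddCommGroup V'] [Module ℚ V'] (e : V ≃ₗ[ℚ] V')
    {φ : ∀ {M : Type u} [AddCommGroup M] [Module k M] [Module A M] [Module Bᵐᵒᵖ M]
      (Z : Bm X Y M), MP_6e5bed_ag_SP.Perf Z → V} (h : IsK0 X Y (fun Z h => φ Z h)) :
    IsK0 X Y (fun Z h => e (φ Z h)) := by
  refine ⟨⟨?_, ?_⟩, ?_⟩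
  · intro M N P _ _ _ _ _ _ _ _ _ _ _ _ Z W Z' h1 h2 h3 hE
    rw [← map_add]
    exact congrArg e (h.1.ext Z W Z' h1 h2 h3 hE)
  · intro M _ _ _ _ Z h1 hc
    rw [← map_zero e]
    exact congrArg e (h.1.contr Z h1 hc)
  · intro V'' _ _ φ' hφ'
    obtain ⟨F, hF, hu⟩ := h.2 V'' (fun Z h => φ' Z h) hφ'
    refine ⟨F ∘ₗ e.symm.toLinearMap, ?_, ?_⟩
    · intro M _ _ _ _ Z h1
      change F (e.symm (e (φ Z h1))) = φ' Z h1
      rw [e.symm_apply_apply]
      exact hF Z h1
    · intro G hG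
      have h2 : G ∘ₗ e.toLinearMap = F := hu _ fun Z h1 => hG Z h1
      rw [← h2]
      refine LinearMap.ext fun v => ?_
      change G v = G (e (e.symm v))
      rw [e.apply_symm_apply]

/-- The functors exist. (`exists_ext` with `G` the structure of a ring `A`, a `k`-algebra structure,
a dg algebra `X : DG k A` and `hX : SmPr X`, `U g = H.U X hX`, `V g = K0Q (ring k L) X.toDGA`,
`ρ f x = K0Q.comp _ x ((ghom H _ _ _ _).symm f)` with the representations `X.toRep`, as in the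
proof of `exists_act` in `WW/WRep.lean`; `ghom_one`, `ghom_comp`, `K0Q.comp_assoc`; `hr` is
`H.retracts`. Then `cl hX Z h = κ (cls (Z.toBim e s) _)`, `isK0_cls` transported along `κ`, and `act`
as in the proof of `exists_act`. The dg algebra `E` is given by `exists_dgL`, `repL`.) -/
theorem exists_k0fun (L : Type u) [Field L] [Algebra k L] : Nonempty (K0Fun H.toNCData L) := by
  obtain ⟨E, hE⟩ := exists_dgL k L
  let U : ExG k → C := fun g => H.U g.X g.hX
  let V : ExG k → Type (u + 1) := fun g => K0Q (ring k L) g.X.toDGA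
  let ρ : ∀ {g g' : ExG k}, (U g ⟶ U g') → V g →ₗ[ℚ] V g' := fun {g g'} f =>
    (K0Q.comp (A := ring k L) (C := g'.X.toDGA) (g.hX.proper g.X.toRep)).flip
      ((ghom H g.hX g'.hX g.X.toRep g'.X.toRep).symm f)
  have hρ : ∀ {g g' : ExG k} (f : U g ⟶ U g') (x : V g), ρ f x =
      K0Q.comp (A := ring k L) (C := g'.X.toDGA) (g.hX.proper g.X.toRep) x
        ((ghom H g.hX g'.hX g.X.toRep g'.X.toRep).symm f) := fun _ _ => rfl
  have h1 : ∀ (g : ExG k) (x : V g), ρ (𝟙 (U g)) x = x := by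
    intro g x
    rw [hρ, (LinearEquiv.symm_apply_eq _).2
      (ghom_one H g.hX g.X.toRep (g.hX.smooth g.X.toRep) (g.hX.proper g.X.toRep)).symm]
    exact K0Q.comp_one _ _ x
  have h2 : ∀ {g g' g'' : ExG k} (f : U g ⟶ U g') (f' : U g' ⟶ U g'') (x : V g),
      ρ (f ≫ f') x = ρ f' (ρ f x) := by
    intro g g' g'' f f' x
    have h3 := ghom_comp H g.hX g'.hX g''.hX g.X.toRep g'.X.toRep g''.X.toRep
      (g'.hX.proper g'.X.toRep) ((ghom H g.hX g'.hX g.X.toRep g'.X.toRep).symm f)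
      ((ghom H g'.hX g''.hX g'.X.toRep g''.X.toRep).symm f')
    rw [LinearEquiv.apply_symm_apply, LinearEquiv.apply_symm_apply] at h3
    rw [hρ, hρ, hρ, (LinearEquiv.symm_apply_eq _).2 h3.symm]
    exact (K0Q.comp_assoc _ _ _ _ _).symm
  have h3 : ∀ {g g' : ExG k} (f f' : U g ⟶ U g') (x : V g), ρ (f + f') x = ρ f x + ρ f' x := by
    intro g g' f f' x
    rw [hρ, hρ, hρ, map_add, map_add]
  have hr : ∀ P : C, ∃ (g : ExG k) (i : P ⟶ U g) (r : U g ⟶ P), i ≫ r = 𝟙 P := by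
    intro P
    obtain ⟨A, iA, iB, X, hX, i, r, hir⟩ := H.retracts P
    exact ⟨⟨A, iA, iB, X, hX⟩, i, r, hir⟩
  obtain ⟨K, κ, hadd, hmap⟩ := exists_ext U V ρ h1 h2 h3 hr
  exact ⟨{
    E := E
    deg := hE
    K := K
    add := hadd
    cl := fun {B M} _ _ _ _ _ _ {X} hX Z h => κ ⟨B, inferInstance, inferInstance, X, hX⟩
      (cls (Z.toBim (repL E hE) X.toRep) (h.to (Z.toRepB (repL E hE) X.toRep)))
    k0 := fun {B} _ _ {X} hX => ex_transport (κ ⟨B, inferInstance, inferInstance, X, hX⟩)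
      (isK0_cls (repL E hE) X.toRep)
    act := by
      intro A B M N P _ _ _ _ _ _ _ _ _ _ _ _ _ _ _ _ Y X hY hX Z Z' T h h' h'' t ht
      have h4 : H.cl hY hX Z' h' = ghom H hY hX Y.toRep X.toRep
          (cls (Z'.toBim Y.toRep X.toRep) (h'.to (Z'.toRepB Y.toRep X.toRep))) :=
        (IsK0.equiv_cls (φ := fun Z h => H.cl hY hX Z h) (H.hom_k0 hY hX) h'
          (Z'.toRepB Y.toRep X.toRep) (h'.to (Z'.toRepB Y.toRep X.toRep))).symm
      refine (hmap (g := ⟨A, inferInstance, inferInstance, Y, hY⟩)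
        (g' := ⟨B, inferInstance, inferInstance, X, hX⟩) (H.cl hY hX Z' h') _).trans ?_
      refine congrArg (κ ⟨B, inferInstance, inferInstance, X, hX⟩) ?_
      rw [hρ]
      change K0Q.comp _ _ ((ghom H hY hX Y.toRep X.toRep).symm (H.cl hY hX Z' h')) = _
      rw [h4, LinearEquiv.symm_apply_apply, K0Q.comp_cls]
      exact K0Q.cls_iso (IsTb.biso (Z.toRepB (repL E hE) Y.toRep) (Z'.toRepB Y.toRep X.toRep)
        (T.toRepB (repL E hE) X.toRep) ht) _ _ }⟩

end Pool.Agent.MP_6e5bed_ag_WF
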