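import Pool.Agent.Lib.MP_6e5bed_ag_WF.AltD
import Pool.Agent.Lib.MP_6e5bed_ag_UD.KfFin

set_option autoImplicit false
set_option linter.unusedVariables false

/-!
# MP_6e5bed_ag, functor form: projectors with finite dimensional image on the Grothendieck group
-/

noncomputable section

namespace Pool.Agent.MP_6e5bed_ag_WF

open CategoryTheory MonoidalCategory Pool.Agent.MP_6e5bed_ag Pool.Agent.MP_6e5bed_ag_NC
  Pool.Agent.MP_6e5bed_ag_WW Pool.Agent.MP_6e5bed_ag_UD

universe u

variable {k : Type u} [Field k]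

private theorem FinA_fin {V W : Type*} [AddCommGroup V] [Module ℚ V] [AddCommGroup W]
    [Module ℚ W] (φ : V →ₗ[ℚ] W) (hφ : Function.Injective φ) (f : V →ₗ[ℚ] V) (g : W →ₗ[ℚ] W)
    (h : ∀ x, φ (f x) = g (φ x)) (hg : Module.Finite ℚ (LinearMap.range g)) :
    Module.Finite ℚ (LinearMap.range f) := by
  have h1 : ∀ x ∈ LinearMap.range f, φ x ∈ LinearMap.range g := by
    rintro _ ⟨x, rfl⟩
    exact ⟨φ x, (h x).symm⟩
  refine Module.Finite.of_injective (φ.restrict h1) fun x y hxy => Subtype.ext (hφ ?_)
  exact congrArg Subtype.val hxy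

/-- If the base field is algebraically closed of infinite transcendence degree over the prime field
and the projector `e` has a finite dimensional image on `K_0(T)_ℚ`, then `e` is even. (As
`one_of_fin` in `UD/KfFin.lean`: let `b i` be a basis of the image; `core_dom` for the family which
consists of the `b i : base k → T` and of `1 - e : T → T`, indexed by
`Option (ULift (Fin n))`, gives `1 = ∑ v i b i + w (1 - e)`; compose with `e`: `e = ∑ v i b i`.
Then `altKill_unit`; the unit of `SP k` is `SP.base k`, see `kf_base` in `CV/FinalA.lean`.) -/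
theorem altKill_of_fin (T : SP k) (hT : CohD T.alg) (hc : IsAlgClosed k)
    (hk : ∀ m : ℕ, ∃ t : Fin m → k, AlgebraicIndependent (⊥ : Subfield k) t) (e : T ⟶ T)
    (he : e ≫ e = e) (h : Module.Finite ℚ (LinearMap.range
      (act (T := T.alg) T.proper e (base k)))) : AltKill e := by
  obtain ⟨n, b, hb⟩ := Module.Finite.exists_fin (R := ℚ)
    (M := LinearMap.range (act (T := T.alg) T.proper e (base k)))
  have hee : K0Q.comp T.proper e e = e := he
  have hbe : ∀ i, K0Q.comp T.proper (b i).1 e = (b i).1 := by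
    intro i
    obtain ⟨x, hx⟩ := (b i).2
    rw [← hx]
    change K0Q.comp T.proper (K0Q.comp T.proper x e) e = K0Q.comp T.proper x e
    rw [K0Q.comp_assoc T.proper T.proper x e e, hee]
  let T' : Option (ULift.{u + 1} (Fin n)) → DGA k := fun a => a.elim T.alg (fun _ => base k)
  let y : ∀ a, K0Q (T' a) T.alg := fun a => match a with
    | none => K0Q.one T.smooth - e
    | some i => (b i.down).1
  have hc' : ∀ a, CohD (T' a) := fun a => match a with
    | none => hT
    | some _ => cohD_base k
  have hs' : ∀ a, Smooth (T' a) := fun a => match a with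
    | none => T.smooth
    | some _ => smooth_base
  have hp' : ∀ a, Proper (T' a) := fun a => match a with
    | none => T.proper
    | some _ => proper_base
  have h0 : ∀ x : K0Q (base k) T.alg, x ∈ JU (base k) hp' y := by
    intro x
    have h1 : x = K0Q.comp T.proper x e + K0Q.comp T.proper x (K0Q.one T.smooth - e) := by
      rw [map_sub, K0Q.comp_one T.smooth T.proper, add_sub_cancel]
    rw [h1]
    refine Submodule.add_mem _ ?_ (mem_JU (W := base k) hp' y none x)
    have h2 : (⟨K0Q.comp T.proper x e, ⟨x, rfl⟩⟩ :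
        LinearMap.range (act (T := T.alg) T.proper e (base k))) ∈
        Submodule.span ℚ (Set.range b) := by rw [hb]; trivial
    have h3 : Submodule.span ℚ (Set.range b) ≤ (JU (base k) hp' y).comap
        (LinearMap.range (act (T := T.alg) T.proper e (base k))).subtype := by
      rw [Submodule.span_le]
      rintro _ ⟨i, rfl⟩
      have h4 := mem_JU (W := base k) hp' y (some ⟨i⟩) (K0Q.one smooth_base)
      have h5 : K0Q.comp (hp' (some ⟨i⟩)) (K0Q.one smooth_base) (y (some ⟨i⟩)) = (b i).1 :=
        K0Q.one_comp smooth_base proper_base _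
      have h6 : (b i).1 ∈ JU (base k) hp' y := h5.symm ▸ h4
      exact h6
    exact h3 h2
  have h1 : K0Q.one T.smooth ∈ JU T.alg hp' y := by
    refine core_dom hT hc' T.smooth hs' hp' y k ⟨hc, Or.inr ⟨inferInstance, hk⟩⟩ fun x => ?_
    obtain ⟨x, rfl⟩ := (res_bij (ringBase k) (DIso.refl T.alg)).2 x
    have h2 : JU (base k) hp' y ≤ (JU (ring k k) hp' y).comap
        (K0Q.res (ringBase k) (DIso.refl T.alg)) := by
      refine iSup_le fun a => ?_
      rintro _ ⟨z, rfl⟩
      have h5 := comp_res3 (hp' a) (hp' a) (ringBase k) (DIso.refl (T' a))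
        (DIso.refl T.alg) z (y a)
      rw [K0Q.res_refl] at h5
      rw [Submodule.mem_comap, LinearMap.flip_apply, ← h5]
      exact mem_JU hp' y a _
    exact h2 (h0 x)
  have h2 : JU T.alg hp' y ≤ (JU (ι := ULift.{u + 1} (Fin n)) (T' := fun _ => base k) T.alg
      (fun _ => proper_base) (fun a => (b a.down).1)).comap
      (act (T := T.alg) T.proper e T.alg) := by
    refine iSup_le fun a => ?_
    rintro _ ⟨z, rfl⟩
    rw [Submodule.mem_comap, LinearMap.flip_apply, act_apply, K0Q.comp_assoc (hp' a) T.proper]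
    match a with
    | none =>
      have h3 : K0Q.comp T.proper (y none) e = 0 := by
        change K0Q.comp T.proper (K0Q.one T.smooth - e) e = 0
        rw [map_sub, LinearMap.sub_apply, hee, K0Q.one_comp T.smooth T.proper, sub_self]
      rw [h3, map_zero]
      exact Submodule.zero_mem _
    | some i =>
      have h3 : K0Q.comp T.proper (y (some i)) e = (b i.down).1 := hbe i.down
      rw [h3]
      exact mem_JU (W := T.alg) (ι := ULift.{u + 1} (Fin n)) (T' := fun _ => base k)
        (fun _ => proper_base) (fun a => (b a.down).1) i z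
  have h3 : e ∈ JU (ι := ULift.{u + 1} (Fin n)) (T' := fun _ => base k) T.alg
      (fun _ => proper_base) (fun a => (b a.down).1) := by
    have h4 := h2 h1
    rw [Submodule.mem_comap, act_apply, K0Q.one_comp T.smooth T.proper] at h4
    exact h4
  obtain ⟨s, v, hv⟩ := (mem_JU_iff _ _ _).1 h3
  have h4 : e = ∑ i : Fin s.card, (show T ⟶ 𝟙_ (SP k) from v (s.equivFin.symm i)) ≫
      (show 𝟙_ (SP k) ⟶ T from (b (s.equivFin.symm i).1.down).1) := by
    refine hv.symm.trans ?_
    refine Eq.trans ?_ (Equiv.sum_comp s.equivFin.symm (fun a : s => K0Q.comp proper_base (v a)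
      (b a.1.down).1)).symm
    exact (Finset.sum_coe_sort s (fun a => K0Q.comp proper_base (v a) (b a.down).1)).symm
  rw [h4]
  exact altKill_unit _ _

/-- The image of the projector over `Ω`. (`psiK_act` in `UD/NilK.lean`, `psiK_bij`,
`baseIso`, `res_bij`, as in `kf_fin` in `UD/KfFin.lean`) -/
theorem fin_range_bc (T : SP k) (Ω : Type u) [Field Ω] [Algebra k Ω] (e : T ⟶ T)
    (h : Module.Finite ℚ (LinearMap.range (act (T := T.alg) T.proper e (ring k Ω)))) :
    Module.Finite ℚ (LinearMap.range (act (T := T.alg.bc Ω) (T.proper.bc Ω)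
      (up Ω (B := T.alg) (C := T.alg) e) (base Ω))) := by
  have h1 : Module.Finite ℚ (LinearMap.range (actS T.proper e Ω)) :=
    FinA_fin (psiK k Ω T.alg) (psiK_bij Ω).1 (actS T.proper e Ω)
      (act (T := T.alg) T.proper e (ring k Ω)) (fun x => (psiK_comp Ω T.proper x e)) h
  refine FinA_fin (K0Q.res (baseIso (k := k) Ω) (DIso.refl (T.alg.bc Ω))) (res_bij _ _).1
    (act (T := T.alg.bc Ω) (T.proper.bc Ω) (up Ω (B := T.alg) (C := T.alg) e) (base Ω))
    (actS T.proper e Ω) (fun x => ?_) h1
  have h2 := comp_res3 (T.proper.bc Ω) (T.proper.bc Ω) (baseIso (k := k) Ω)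
    (DIso.refl (T.alg.bc Ω)) (DIso.refl (T.alg.bc Ω)) x (up Ω (B := T.alg) (C := T.alg) e)
  rw [K0Q.res_refl] at h2
  exact h2.symm

/-- (`fin_range_bc`, `altKill_of_fin` over `Ω`, `altKill_desc`) -/
theorem altKill_of_fin_bc (T : SP k) (hT : CohD T.alg) (Ω : Type u) [Field Ω] [Algebra k Ω]
    (hc : IsAlgClosed Ω)
    (hk : ∀ m : ℕ, ∃ t : Fin m → Ω, AlgebraicIndependent (⊥ : Subfield Ω) t) (e : T ⟶ T)
    (he : e ≫ e = e) (h : Module.Finite ℚ (LinearMap.range
      (act (T := T.alg) T.proper e (ring k Ω)))) : AltKill e := by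
  refine altKill_desc T e (altKill_of_fin (T.bc Ω) (hT.bc Ω) hc hk _ ?_ (fin_range_bc T Ω e h))
  have h1 := up_comp (S := Ω) T.proper e e
  have h2 : K0Q.comp T.proper e e = e := he
  rw [h2] at h1
  exact h1.symm

end Pool.Agent.MP_6e5bed_ag_WF
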