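import Mathlib

set_option autoImplicit false

/-!
# MP_6e5bed_ag, functor form: direct summands
-/

namespace Pool.Agent.MP_6e5bed_ag_WF

open CategoryTheory

universe v u w w'

variable {C : Type u} [Category.{v} C] [Preadditive C]

section fam

variable {X M : C} {i : M ⟶ X} {r : X ⟶ M} {ι : Type w} {N : ι → C} (u : ∀ a, N a ⟶ M)
  {Z : Option ι → C} (z : ∀ b, Z b ⟶ X) (c : X ⟶ Z none) (j : ∀ a, N a ⟶ Z (some a))
  (q : ∀ a, Z (some a) ⟶ N a)

/-- The identity of the summand `M` of `X` is a sum of compositions with the `u a` iff the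
identity of `X` is a sum of compositions with the `q a ≫ u a ≫ i` and with `𝟙 - r ≫ i`. -/
theorem dec_fam (hir : i ≫ r = 𝟙 M) (hc : c ≫ z none = 𝟙 X - r ≫ i) (hz : z none ≫ r = 0)
    (hq : ∀ a, z (some a) = q a ≫ u a ≫ i) (hj : ∀ a, j a ≫ q a = 𝟙 (N a)) :
    (∃ (s : Finset ι) (v : ∀ a, M ⟶ N a), ∑ a ∈ s, v a ≫ u a = 𝟙 M) ↔
      ∃ (s : Finset (Option ι)) (v : ∀ b, X ⟶ Z b), ∑ b ∈ s, v b ≫ z b = 𝟙 X := by
  constructor
  · rintro ⟨s, v, h⟩
    refine ⟨Finset.insertNone s, fun b => match b with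
      | none => c
      | some a => r ≫ v a ≫ j a, ?_⟩
    rw [Finset.sum_insertNone]
    have h1 : ∀ a ∈ s, (r ≫ v a ≫ j a) ≫ z (some a) = r ≫ (v a ≫ u a) ≫ i := by
      intro a _
      rw [hq a]
      simp only [Category.assoc]
      rw [← Category.assoc (j a) (q a), hj a, Category.id_comp]
    rw [Finset.sum_congr rfl h1, ← Preadditive.comp_sum, ← Preadditive.sum_comp, h,
      Category.id_comp, hc, sub_add_cancel]
  · rintro ⟨s, v, h⟩
    refine ⟨Finset.eraseNone s, fun a => i ≫ v (some a) ≫ q a, ?_⟩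
    have h1 : ∀ a, (i ≫ v (some a) ≫ q a) ≫ u a = i ≫ (v (some a) ≫ z (some a)) ≫ r := by
      intro a
      rw [hq a]
      simp only [Category.assoc, hir, Category.comp_id]
    have h2 : ∀ b ∈ s, Option.elim' (0 : M ⟶ M)
        (fun a => (i ≫ v (some a) ≫ q a) ≫ u a) b = i ≫ (v b ≫ z b) ≫ r := by
      intro b _
      cases b with
      | none => simp [hz]
      | some a => simpa using h1 a
    rw [Finset.sum_eraseNone (fun a => (i ≫ v (some a) ≫ q a) ≫ u a) s,
      Finset.sum_congr rfl h2, ← Preadditive.comp_sum, ← Preadditive.sum_comp, h,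
      Category.id_comp, hir]

/-- The same for the images under an additive functor. -/
theorem gen_fam (K : C ⥤ ModuleCat.{w'} ℚ) [K.Additive] (hir : i ≫ r = 𝟙 M)
    (hc : c ≫ z none = 𝟙 X - r ≫ i) (hz : z none ≫ r = 0)
    (hq : ∀ a, z (some a) = q a ≫ u a ≫ i) (hj : ∀ a, j a ≫ q a = 𝟙 (N a)) :
    ⨆ a, LinearMap.range (K.map (u a)).hom = ⊤ ↔
      ⨆ b, LinearMap.range (K.map (z b)).hom = ⊤ := by
  have hcz : ∀ x : K.obj X, x = (K.map (z none)).hom ((K.map c).hom x)
      + (K.map i).hom ((K.map r).hom x) := by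
    intro x
    have h0 : c ≫ z none + r ≫ i = 𝟙 X := by rw [hc, sub_add_cancel]
    have h1 : (K.map (c ≫ z none + r ≫ i)).hom x = x := by
      rw [h0, K.map_id]
      rfl
    rw [K.map_add, K.map_comp, K.map_comp] at h1
    exact h1.symm
  have hrm : ∀ m : K.obj M, (K.map r).hom ((K.map i).hom m) = m := by
    intro m
    have h1 : (K.map (i ≫ r)).hom m = m := by
      rw [hir, K.map_id]
      rfl
    rw [K.map_comp] at h1
    exact h1
  have hza : ∀ a (y : K.obj (Z (some a))), (K.map (z (some a))).hom y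
      = (K.map i).hom ((K.map (u a)).hom ((K.map (q a)).hom y)) := by
    intro a y
    rw [hq a, K.map_comp, K.map_comp]
    rfl
  have hja : ∀ a (y : K.obj (N a)), (K.map (q a)).hom ((K.map (j a)).hom y) = y := by
    intro a y
    have h1 : (K.map (j a ≫ q a)).hom y = y := by
      rw [hj a, K.map_id]
      rfl
    rw [K.map_comp] at h1
    exact h1
  have hz0 : ∀ y : K.obj (Z none), (K.map r).hom ((K.map (z none)).hom y) = 0 := by
    intro y
    have h1 : (K.map (z none ≫ r)).hom y = 0 := by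
      rw [hz, K.map_zero]
      rfl
    rw [K.map_comp] at h1
    exact h1
  constructor
  · intro h
    rw [eq_top_iff]
    intro x _
    rw [hcz x]
    refine Submodule.add_mem _ ?_ ?_
    · exact Submodule.mem_iSup_of_mem none ⟨_, rfl⟩
    · have h2 : (⨆ a, LinearMap.range (K.map (u a)).hom) ≤
          (⨆ b, LinearMap.range (K.map (z b)).hom).comap (K.map i).hom := by
        refine iSup_le fun a => ?_
        rintro _ ⟨y, rfl⟩
        refine Submodule.mem_iSup_of_mem (some a) ⟨(K.map (j a)).hom y, ?_⟩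
        rw [hza, hja]
      rw [h] at h2
      exact h2 Submodule.mem_top
  · intro h
    rw [eq_top_iff]
    intro m _
    have h2 : (⨆ b, LinearMap.range (K.map (z b)).hom) ≤
        (⨆ a, LinearMap.range (K.map (u a)).hom).comap (K.map r).hom := by
      refine iSup_le fun b => ?_
      rintro _ ⟨y, rfl⟩
      cases b with
      | none =>
        rw [Submodule.mem_comap, hz0]
        exact Submodule.zero_mem _
      | some a =>
        rw [Submodule.mem_comap, hza, hrm]
        exact Submodule.mem_iSup_of_mem a ⟨_, rfl⟩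
    rw [h] at h2
    have h3 := h2 (Submodule.mem_top (x := (K.map i).hom m))
    rw [Submodule.mem_comap, hrm] at h3
    exact h3

end fam

section nil

variable {X M : C} {i : M ⟶ X} {r : X ⟶ M}

/-- The endomorphism `f` of the summand `M` of `X` is nilpotent iff `r ≫ f ≫ i` is nilpotent. -/
theorem nil_sum (hir : i ≫ r = 𝟙 M) (f : End M) (g : End X) (hg : g = r ≫ f ≫ i) :
    IsNilpotent f ↔ IsNilpotent g := by
  subst hg
  have key : ∀ n : ℕ, (show End X from r ≫ f ≫ i) ^ (n + 1)
      = (show End X from r ≫ (show M ⟶ M from f ^ (n + 1)) ≫ i) := by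
    intro n
    induction n with
    | zero => rw [zero_add, pow_one, pow_one]
    | succ n ih =>
      rw [pow_succ, ih, pow_succ f (n + 1)]
      show (r ≫ f ≫ i) ≫ (r ≫ (show M ⟶ M from f ^ (n + 1)) ≫ i)
        = r ≫ (f ≫ (show M ⟶ M from f ^ (n + 1))) ≫ i
      simp only [Category.assoc]
      rw [← Category.assoc i r, hir, Category.id_comp]
  constructor
  · rintro ⟨n, hn⟩
    refine ⟨n + 1, ?_⟩
    have h0 : f ^ (n + 1) = 0 := by rw [pow_succ, hn, zero_mul]
    have h1 := key n
    rw [h0] at h1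
    refine h1.trans ?_
    show r ≫ (0 : M ⟶ M) ≫ i = 0
    simp
  · rintro ⟨n, hn⟩
    refine ⟨n + 1, ?_⟩
    have h0 : (show End X from r ≫ f ≫ i) ^ (n + 1) = 0 := by
      rw [pow_succ]
      have hn' : (show End X from r ≫ f ≫ i) ^ n = 0 := hn
      rw [hn', zero_mul]
    have h1 : r ≫ (show M ⟶ M from f ^ (n + 1)) ≫ i = (0 : X ⟶ X) := (key n).symm.trans h0
    have h2 : (show M ⟶ M from f ^ (n + 1))
        = i ≫ (r ≫ (show M ⟶ M from f ^ (n + 1)) ≫ i) ≫ r := by
      simp only [Category.assoc, hir, Category.comp_id]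
      rw [← Category.assoc i r, hir, Category.id_comp]
    refine h2.trans ?_
    rw [h1]
    simp

/-- The same for the images under a functor. -/
theorem locNil_sum (K : C ⥤ ModuleCat.{w'} ℚ) [K.Additive] (hir : i ≫ r = 𝟙 M) (f : M ⟶ M) :
    (∀ x : K.obj M, ∃ m : ℕ, (⇑(K.map f).hom)^[m] x = 0) ↔
      ∀ x : K.obj X, ∃ m : ℕ, (⇑(K.map (r ≫ f ≫ i)).hom)^[m] x = 0 := by
  have hrm : ∀ m : K.obj M, (K.map r).hom ((K.map i).hom m) = m := by
    intro m
    have h1 : (K.map (i ≫ r)).hom m = m := by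
      rw [hir, K.map_id]
      rfl
    rw [K.map_comp] at h1
    exact h1
  have hg : ∀ y : K.obj X, (K.map (r ≫ f ≫ i)).hom y
      = (K.map i).hom ((K.map f).hom ((K.map r).hom y)) := by
    intro y
    rw [K.map_comp, K.map_comp]
    rfl
  have key1 : ∀ (n : ℕ) (y : K.obj X), (⇑(K.map (r ≫ f ≫ i)).hom)^[n + 1] y
      = (K.map i).hom ((⇑(K.map f).hom)^[n + 1] ((K.map r).hom y)) := by
    intro n
    induction n with
    | zero =>
      intro y
      simp only [zero_add, Function.iterate_one]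
      exact hg y
    | succ n ih =>
      intro y
      rw [Function.iterate_succ_apply, ih, hg, hrm, ← Function.iterate_succ_apply]
  have key2 : ∀ (n : ℕ) (x : K.obj M), (⇑(K.map f).hom)^[n] x
      = (K.map r).hom ((⇑(K.map (r ≫ f ≫ i)).hom)^[n] ((K.map i).hom x)) := by
    intro n
    induction n with
    | zero =>
      intro x
      simp only [Function.iterate_zero, id_eq]
      exact (hrm x).symm
    | succ n ih =>
      intro x
      rw [Function.iterate_succ_apply, ih, Function.iterate_succ_apply, hg, hrm]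
  constructor
  · intro h y
    obtain ⟨m, hm⟩ := h ((K.map r).hom y)
    refine ⟨m + 1, ?_⟩
    rw [key1, Function.iterate_succ_apply', hm, map_zero, map_zero]
  · intro h x
    obtain ⟨m, hm⟩ := h ((K.map i).hom x)
    refine ⟨m, ?_⟩
    rw [key2, hm, map_zero]

end nil

end Pool.Agent.MP_6e5bed_ag_WF
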