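import Pool.Agent.Lib.MP_6e5bed_ag_GG.TDef

set_option autoImplicit false

/-!
# The functors `M ↦ K_0(M_L)_ℚ` on noncommutative motives (MP_6e5bed_ag)
-/

namespace Pool.Agent.MP_6e5bed_ag_Kf

open CategoryTheory MonoidalCategory MulOpposite MvPolynomial Pool.Agent.MP_6e5bed_ag_SP
  Pool.Agent.MP_6e5bed_ag_Pn

universe u

section

variable {k : Type u} [Field k] {C : Type (u + 1)} [Category.{u + 1} C] [MonoidalCategory C]
  [Preadditive C] (H : NCData k C)

/-- The functor `K : M ↦ K_0(M_L)_ℚ` on noncommutative motives: for a smooth and proper dg algebra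
`X` the vector space `K (U X)` is the Grothendieck group of the perfect dg `L`-`X`-bimodules tensored
with `ℚ`, where the field `L` is the dg algebra `E` concentrated in degree zero, and the morphism
`U Y ⟶ U X` given by the bimodule `Z'` maps the class of `Z` to the class of `Z ⊗_Y Z'`. -/
structure K0Fun (L : Type u) [Field L] [Algebra k L] where
  /-- the dg algebra `L` -/
  E : DG k L
  deg : E.gr 0 = ⊤
  /-- the functor -/
  K : C ⥤ ModuleCat.{u + 1} ℚ
  add : K.Additive
  /-- the classes of the perfect bimodules -/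
  cl : ∀ {B M : Type u} [Ring B] [Algebra k B] [AddCommGroup M] [Module k M] [Module L M]
    [Module Bᵐᵒᵖ M] {X : DG k B} (hX : SmPr X) (Z : Bm E X M), Perf Z → K.obj (H.U X hX)
  k0 : ∀ {B : Type u} [Ring B] [Algebra k B] {X : DG k B} (hX : SmPr X),
    IsK0 E X (V := K.obj (H.U X hX)) (fun Z h => cl hX Z h)
  act : ∀ {A B M N P : Type u} [Ring A] [Algebra k A] [Ring B] [Algebra k B] [AddCommGroup M]
    [Module k M] [Module L M] [Module Aᵐᵒᵖ M] [AddCommGroup N] [Module k N] [Module A N]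
    [Module Bᵐᵒᵖ N] [AddCommGroup P] [Module k P] [Module L P] [Module Bᵐᵒᵖ P] {Y : DG k A}
    {X : DG k B} (hY : SmPr Y) (hX : SmPr X) (Z : Bm E Y M) (Z' : Bm Y X N) (T : Bm E X P)
    (h : Perf Z) (h' : Perf Z') (h'' : Perf T) (t : M →ₗ[k] N →ₗ[k] P), IsTb Z Z' T t →
    (K.map (H.cl hY hX Z' h')).hom (cl hY Z h) = cl hX T h''

variable {H} {L : Type u} [Field L] [Algebra k L]

/-- The images of the maps `K_0(N_{a,L})_ℚ → K_0(M_L)_ℚ` generate `K_0(M_L)_ℚ`. -/
def K0Fun.Gen (K : K0Fun H L) {ι : Type (u + 1)} {N : ι → C} {M : C} (v : ∀ a, N a ⟶ M) : Prop :=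
  ⨆ a, LinearMap.range (K.K.map (v a)).hom = ⊤

/-- The map `K_0(N_L)_ℚ → K_0(M_L)_ℚ` is bijective. -/
def K0Fun.Bij (K : K0Fun H L) {N M : C} (v : N ⟶ M) : Prop :=
  Function.Bijective (K.K.map v).hom

/-- The endomorphism `f` acts locally nilpotently on `K_0(M_L)_ℚ`: every element is mapped to zero
by an iterate of the map given by `f`. -/
def K0Fun.LocNil (K : K0Fun H L) {M : C} (f : M ⟶ M) : Prop :=
  ∀ x : K.K.obj M, ∃ m : ℕ, (⇑(K.K.map f).hom)^[m] x = 0

variable (H)

/-- The motive `M` is a direct summand of the motive of the dg algebra `X = RΓ(Pⁿ, Γ~)`, which is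
smooth and proper. -/
def SumOf (n : ℕ) {Γ : Type u} [Ring Γ] [Algebra k Γ] [Algebra (MvPolynomial (Fin (n + 1)) k) Γ]
    (𝒢 : ℕ → Submodule k Γ) (M : C) : Prop :=
  ∃ (T : Type u) (_ : Ring T) (_ : Algebra k T) (X : DG k T) (hX : SmPr X) (i : M ⟶ H.U X hX)
    (r : H.U X hX ⟶ M), IsRGam n 𝒢 X ∧ i ≫ r = 𝟙 M

/-- The motive `M` is geometric: it is a direct summand of the motive of a smooth and proper dg
algebra `X = RΓ(Pⁿ, Γ~)`, for some `n` and some graded algebra `Γ` which is a finitely generated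
module over the polynomial ring. -/
def Geo (M : C) : Prop :=
  ∃ (n : ℕ) (Γ : Type u) (_ : Ring Γ) (_ : Algebra k Γ)
    (_ : Algebra (MvPolynomial (Fin (n + 1)) k) Γ)
    (_ : IsScalarTower k (MvPolynomial (Fin (n + 1)) k) Γ) (𝒢 : ℕ → Submodule k Γ),
    IsGr n 𝒢 ∧ SumOf H n 𝒢 M

end

/-- The field `L` is the centre of a simple quotient `Q` of one of the algebras `Γ ⊗ F`
(`x_i ↦ a_i`), where `F` is a field which is generated over `k` by elements `a_0, …, a_n`, one of
which is `1` (the residue field of a point of the projective space). -/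
def CenL (n : ℕ) (k Γ : Type u) [Field k] [Ring Γ] [Algebra (MvPolynomial (Fin (n + 1)) k) Γ]
    (L : Type u) [Field L] [Algebra k L] : Prop :=
  ∃ (F Q : Type u) (_ : Field F) (_ : Algebra k F) (_ : Ring Q) (_ : Algebra F Q)
    (_ : IsSimpleRing Q) (a : Fin (n + 1) → F) (j : Fin (n + 1)) (π : Γ →+* Q) (e : L →+* Q),
    a j = 1 ∧ IntermediateField.adjoin k (Set.range a) = ⊤ ∧
    (∀ p : MvPolynomial (Fin (n + 1)) k, π (algebraMap _ Γ p) = algebraMap F Q (aeval a p)) ∧
    Submodule.span F (Set.range π) = ⊤ ∧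
    (∀ c, e (algebraMap k L c) = algebraMap F Q (algebraMap k F c)) ∧
    ∀ z : Q, z ∈ Set.range e ↔ ∀ x, z * x = x * z

/-- The field `Ω` over `k` is algebraically closed and contains `n` elements which are
algebraically independent over `k`; if `p` holds, it is sufficient that `Ω` contains, for every `m`,
`m` elements which are algebraically independent over the prime field. -/
def UDom (n : ℕ) (p : Prop) (k Ω : Type u) [Field k] [Field Ω] [Algebra k Ω] : Prop :=
  IsAlgClosed Ω ∧ ((∃ t : Fin n → Ω, AlgebraicIndependent k t) ∨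
    p ∧ ∀ m : ℕ, ∃ t : Fin m → Ω, AlgebraicIndependent (⊥ : Subfield Ω) t)

/-- The property `A` is detected by the property `P` of the functors `M ↦ K_0(M_L)_ℚ`, for all
fields `L` over `k`, for the fields `L` over `k` with the property `Z`, or for one algebraically
closed field `Ω` as in `UDom n p`. -/
def Det {k : Type u} [Field k] {C : Type (u + 1)} [Category.{u + 1} C] [MonoidalCategory C]
    [Preadditive C] (H : NCData k C) (n : ℕ) (p : Prop)
    (Z : ∀ (L : Type u) [Field L] [Algebra k L], Prop) (A : Prop)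
    (P : ∀ (L : Type u) [Field L] [Algebra k L], K0Fun H L → Prop) : Prop :=
  [A, ∀ (L : Type u) [Field L] [Algebra k L] (K : K0Fun H L), P L K,
    ∀ (L : Type u) [Field L] [Algebra k L] (K : K0Fun H L), Z L → P L K,
    ∃ (Ω : Type u) (_ : Field Ω) (_ : Algebra k Ω) (K : K0Fun H Ω), UDom n p k Ω ∧ P Ω K].TFAE

end Pool.Agent.MP_6e5bed_ag_Kf
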