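import Pool.Agent.Lib.MP_6e5bed_ag_WF.KDef
import Pool.Agent.Lib.MP_6e5bed_ag_UD.UMain

set_option autoImplicit false
set_option linter.unusedVariables false

/-!
# MP_6e5bed_ag, functor form: the functors `K_0(-_L)_ℚ` in terms of classes of the tower
-/

noncomputable section

namespace Pool.Agent.MP_6e5bed_ag_WF

open CategoryTheory MonoidalCategory MulOpposite Pool.Agent.MP_6e5bed_ag_NC
  Pool.Agent.MP_6e5bed_ag_WW Pool.Agent.MP_6e5bed_ag_UD
open Pool.Agent.MP_6e5bed_ag_Kf (K0Fun)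
open Pool.Agent.MP_6e5bed_ag_SP (DG Bm Rep SmPr NCMot IsK0)

universe u

variable {k : Type u} [Field k] {C : Type (u + 1)} [Category.{u + 1} C] [MonoidalCategory C]
  [SymmetricCategory C] [Preadditive C] [MonoidalPreadditive C] [Linear ℚ C] (H : NCMot k C)
  {L : Type u} [Field L] [Algebra k L] (K : K0Fun H.toNCData L)
  {A B : Type u} [Ring A] [Algebra k A] [Ring B] [Algebra k B]
  {Y : DG k A} {X : DG k B} (hY : SmPr Y) (hX : SmPr X) {A' B' : DGA k} (r : Rep Y A')
  (s : Rep X B')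

/-- The classes of the tower. -/
def kap : K0Q (ring k L) B' ≃ₗ[ℚ] K.K.obj (H.U X hX) :=
  IsK0.equiv (φ := fun Z h => K.cl hX Z h) (K.k0 hX) (repL K.E K.deg) s

/-- The functor is given by the composition of classes. (`act_comp` in `WW/WTr.lean` for the linear
map `F u x = (K.K.map u).hom x`; it is `ℚ`-linear in `u` since it is additive.) -/
theorem kap_comp (hp : Proper A') (x : K0Q (ring k L) A') (y : K0Q A' B') :
    (K.K.map (ghom H hY hX r s y)).hom (kap H K hY r x) =
      kap H K hX s (K0Q.comp hp x y) := by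
  have := K.add
  let F : (H.U Y hY ⟶ H.U X hX) →ₗ[ℚ] K.K.obj (H.U Y hY) →ₗ[ℚ] K.K.obj (H.U X hX) :=
    AddMonoidHom.toRatLinearMap
      { toFun := fun u => (K.K.map u).hom
        map_zero' := by
          rw [Functor.map_zero, ModuleCat.hom_zero]
        map_add' := fun u v => by
          rw [Functor.map_add, ModuleCat.hom_add] }
  have hF : Pool.Agent.MP_6e5bed_ag_Pn.IsAct H.toNCData hY hX K.E (fun Z h => K.cl hY Z h)
      (fun Z h => K.cl hX Z h) F := by
    intro M N P _ _ _ _ _ _ _ _ _ _ _ _ Z Z' T h h' h'' t ht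
    exact K.act hY hX Z Z' T h h' h'' t ht
  exact act_comp H hY hX r s (repL K.E K.deg) (K.k0 hY) (K.k0 hX) hF hp x y

/-- as `uGen_iff` in `WW/WRep.lean` -/
theorem gen_iff {ι : Type (u + 1)} {AA : ι → Type u} [∀ a, Ring (AA a)]
    [∀ a, Algebra k (AA a)] {YY : ∀ a, DG k (AA a)} (hYY : ∀ a, SmPr (YY a)) {AA' : ι → DGA k}
    (rr : ∀ a, Rep (YY a) (AA' a)) {uu : ∀ a, H.U (YY a) (hYY a) ⟶ H.U X hX}
    {yy : ∀ a, K0Q (AA' a) B'} (hp : ∀ a, Proper (AA' a))
    (hu : ∀ a, ghom H (hYY a) hX (rr a) s (yy a) = uu a) :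
    K.Gen uu ↔ ∀ x : K0Q (ring k L) B', x ∈ JU (ring k L) hp yy := by
  obtain rfl : (fun a => ghom H (hYY a) hX (rr a) s (yy a)) = uu := funext hu
  have h2 : ∀ a, LinearMap.range (K.K.map (ghom H (hYY a) hX (rr a) s (yy a))).hom =
      (LinearMap.range ((K0Q.comp (A := ring k L) (hp a)).flip (yy a))).map
        (kap H K hX s : K0Q (ring k L) B' →ₗ[ℚ] K.K.obj (H.U X hX)) := by
    intro a
    refine le_antisymm ?_ ?_
    · rintro _ ⟨v, rfl⟩
      refine ⟨_, ⟨(kap H K (hYY a) (rr a)).symm v, rfl⟩, ?_⟩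
      have h3 := kap_comp H K (hYY a) hX (rr a) s (hp a) ((kap H K (hYY a) (rr a)).symm v) (yy a)
      rw [LinearEquiv.apply_symm_apply] at h3
      exact h3.symm
    · rintro _ ⟨_, ⟨z, rfl⟩, rfl⟩
      exact ⟨_, kap_comp H K (hYY a) hX (rr a) s (hp a) z (yy a)⟩
  have h4 : (⨆ a, LinearMap.range (K.K.map (ghom H (hYY a) hX (rr a) s (yy a))).hom) =
      (JU (ring k L) hp yy).map
        (kap H K hX s : K0Q (ring k L) B' →ₗ[ℚ] K.K.obj (H.U X hX)) := by
    unfold JU
    rw [Submodule.map_iSup]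
    exact iSup_congr h2
  unfold K0Fun.Gen
  constructor
  · intro h x
    have h5 : (kap H K hX s) x ∈ (JU (ring k L) hp yy).map
        (kap H K hX s : K0Q (ring k L) B' →ₗ[ℚ] K.K.obj (H.U X hX)) := by
      rw [← h4, h]
      trivial
    obtain ⟨x', hx', hx⟩ := h5
    have h6 : x' = x := (kap H K hX s).injective hx
    rwa [← h6]
  · intro h
    have h7 : JU (ring k L) hp yy = ⊤ := eq_top_iff.2 fun x _ => h x
    rw [h4, h7, Submodule.map_top, LinearMap.range_eq_top]
    exact (kap H K hX s).surjective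

/-- as `uNil_iff` in `UD/URep.lean` -/
theorem locNil_iff {f : H.U X hX ⟶ H.U X hX} {y : K0Q B' B'} (hp : Proper B')
    (hf : ghom H hX hX s s y = f) :
    K.LocNil f ↔ ∀ x : K0Q (ring k L) B', x ∈ NU hp y (ring k L) := by
  subst hf
  have h3 : ∀ (m : ℕ) (v : K0Q (ring k L) B'),
      (⇑(K.K.map (ghom H hX hX s s y)).hom)^[m] (kap H K hX s v) =
        kap H K hX s ((act hp y (ring k L) ^ m) v) := by
    intro m v
    induction m with
    | zero => rfl
    | succ m ih =>
      rw [Function.iterate_succ_apply', ih, pow_succ', Module.End.mul_apply,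
        kap_comp H K hX hX s s hp]
      rfl
  constructor
  · intro h x
    obtain ⟨m, hm⟩ := h (kap H K hX s x)
    rw [h3] at hm
    exact mem_NU.2 ⟨m, (kap H K hX s).injective (hm.trans (map_zero _).symm)⟩
  · intro h x
    obtain ⟨m, hm⟩ := mem_NU.1 (h ((kap H K hX s).symm x))
    refine ⟨m, ?_⟩
    have h4 := h3 m ((kap H K hX s).symm x)
    rwa [LinearEquiv.apply_symm_apply, hm, map_zero] at h4

/-- The image of an endomorphism. -/
theorem fin_range_iff {f : H.U X hX ⟶ H.U X hX} {y : K0Q B' B'} (hp : Proper B')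
    (hf : ghom H hX hX s s y = f) :
    Module.Finite ℚ (LinearMap.range (K.K.map f).hom) ↔
      Module.Finite ℚ (LinearMap.range (act hp y (ring k L))) := by
  subst hf
  have h2 : LinearMap.range (K.K.map (ghom H hX hX s s y)).hom =
      (LinearMap.range (act hp y (ring k L))).map
        (kap H K hX s : K0Q (ring k L) B' →ₗ[ℚ] K.K.obj (H.U X hX)) := by
    refine le_antisymm ?_ ?_
    · rintro _ ⟨v, rfl⟩
      refine ⟨_, ⟨(kap H K hX s).symm v, rfl⟩, ?_⟩
      have h3 := kap_comp H K hX hX s s hp ((kap H K hX s).symm v) y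
      rw [LinearEquiv.apply_symm_apply] at h3
      exact h3.symm
    · rintro _ ⟨_, ⟨z, rfl⟩, rfl⟩
      exact ⟨_, kap_comp H K hX hX s s hp z y⟩
  rw [h2]
  exact Module.Finite.equiv_iff
    ((kap H K hX s).submoduleMap (LinearMap.range (act hp y (ring k L)))).symm

end Pool.Agent.MP_6e5bed_ag_WF
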