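import Pool.Agent.Lib.MP_6e5bed_ag_WF.UN
import Pool.Agent.Lib.MP_6e5bed_ag_WF.Gen

set_option autoImplicit false
set_option linter.unusedVariables false

/-!
# MP_6e5bed_ag, functor form: transport of `Det`, the theorem for families
-/

noncomputable section

namespace Pool.Agent.MP_6e5bed_ag_WF

open CategoryTheory MonoidalCategory MvPolynomial Pool.Agent.MP_6e5bed_ag
  Pool.Agent.MP_6e5bed_ag_NC Pool.Agent.MP_6e5bed_ag_GG
  Pool.Agent.MP_6e5bed_ag_WW Pool.Agent.MP_6e5bed_ag_UD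
open Pool.Agent.MP_6e5bed_ag_PN hiding Ch
open Pool.Agent.MP_6e5bed_ag_Kf (K0Fun UDom Det SumOf Geo CenL)
open Pool.Agent.MP_6e5bed_ag_Pn (IsGr IsRGam)
open Pool.Agent.MP_6e5bed_ag_SP (DG Rep SmPr NCMot)

universe u

theorem udom_mono {n n' : ℕ} {p p' : Prop} (hn : n ≤ n') (hp : p' → p) {k Ω : Type u} [Field k]
    [Field Ω] [Algebra k Ω] (h : UDom n' p' k Ω) : UDom n p k Ω := by
  obtain ⟨h1, ⟨t, ht⟩ | ⟨hp', h2⟩⟩ := h
  · exact ⟨h1, Or.inl ⟨t ∘ Fin.castLE hn, ht.comp _ (Fin.castLE_injective hn)⟩⟩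
  · exact ⟨h1, Or.inr ⟨hp hp', h2⟩⟩

variable {ν : ℕ} {k : Type u} [Field k] {C : Type (u + 1)} [Category.{u + 1} C]
  [MonoidalCategory C] [SymmetricCategory C] [Preadditive C] [MonoidalPreadditive C] [Linear ℚ C]
  (H : NCMot k C)

theorem det_congrA {n n' : ℕ} {p p' : Prop} {Z : ∀ (L : Type u) [Field L] [Algebra k L], Prop}
    {A A' : Prop} {P P' : ∀ (L : Type u) [Field L] [Algebra k L], K0Fun H.toNCData L → Prop}
    (h : Det H.toNCData n p Z A P) (hn : n ≤ n') (hp : p' → p) (hA : A' ↔ A)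
    (hP : ∀ (L : Type u) [Field L] [Algebra k L] (K : K0Fun H.toNCData L), P' L K ↔ P L K) :
    Det H.toNCData n' p' Z A' P' := by
  unfold Det at h ⊢
  have h12 := h.out 0 1
  have h13 := h.out 0 2
  have h14 := h.out 0 3
  tfae_have 1 → 2 := fun h1 L _ _ K => (hP L K).2 (h12.1 (hA.1 h1) L K)
  tfae_have 2 → 3 := fun h2 L _ _ K _ => h2 L K
  tfae_have 3 → 1 := fun h3 => hA.2 (h13.2 fun L _ _ K hL => (hP L K).1 (h3 L K hL))
  tfae_have 2 → 4 := by
    intro h2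
    obtain ⟨Ω, _, _, hΩ⟩ := exists_udom n' p' k
    obtain ⟨K⟩ := exists_k0fun H Ω
    exact ⟨Ω, _, _, K, hΩ, h2 Ω K⟩
  tfae_have 4 → 1 := by
    rintro ⟨Ω, _, _, K, hΩ, h4⟩
    exact hA.2 (h14.2 ⟨Ω, _, _, K, udom_mono hn hp hΩ, (hP Ω K).1 h4⟩)
  tfae_finish

section main

variable {Γ : Type u} [Ring Γ] [Algebra k Γ]
  [Algebra (MvPolynomial (Fin (ν + 1)) k) Γ] [IsScalarTower k (MvPolynomial (Fin (ν + 1)) k) Γ]
  {𝒢 : ℕ → Submodule k Γ} (h : IsGr ν 𝒢) {M : C} (hM : SumOf H.toNCData ν 𝒢 M)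

include h hM

theorem main_famMA {ι : Type (u + 1)} {N : ι → C} (u : ∀ a, N a ⟶ M)
    (hN : ∀ a, Geo H.toNCData (N a)) :
    Det H.toNCData ν (Finite ι) (fun L => CenL ν k Γ L)
      (∃ (s : Finset ι) (v : ∀ a, M ⟶ N a), ∑ a ∈ s, v a ≫ u a = 𝟙 M)
      fun _ _ _ K => K.Gen u := by
  obtain ⟨T, j0, j0', X, sX, i, r, hX, hir⟩ := hM
  choose n' Γ' i1 i2 i3 i4 𝒢' h' T' j1 j2 Y sY i' r' hY hir' using hN
  let S : Option ι → Type u := fun b => b.elim T T'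
  let k1 : ∀ b, Ring (S b) := fun b => match b with
    | none => j0
    | some a => j1 a
  let k2 : ∀ b, Algebra k (S b) := fun b => match b with
    | none => j0'
    | some a => j2 a
  let Z : ∀ b, DG k (S b) := fun b => match b with
    | none => X
    | some a => Y a
  have hZ : ∀ b, Pool.Agent.MP_6e5bed_ag_Pn.CohAlg (Z b) := by
    rintro (_ | a)
    · exact ⟨ν, Γ, _, _, _, ‹_›, 𝒢, h, hX⟩
    · exact ⟨n' a, Γ' a, i1 a, i2 a, i3 a, i4 a, 𝒢' a, h' a, hY a⟩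
  have sZ : ∀ b, SmPr (Z b) := by
    rintro (_ | a)
    · exact sX
    · exact sY a
  let w : ∀ b, H.U (Z b) (sZ b) ⟶ H.U X sX := fun b => match b with
    | none => 𝟙 (H.U X sX) - r ≫ i
    | some a => r' a ≫ u a ≫ i
  have hz : w none ≫ r = 0 := by
    change (𝟙 (H.U X sX) - r ≫ i) ≫ r = 0
    rw [Preadditive.sub_comp, Category.id_comp, Category.assoc, hir, Category.comp_id, sub_self]
  refine det_congrA H (main_famW H h hX sX hZ sZ w) le_rfl (fun _ => inferInstance) ?_ ?_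
  · exact dec_fam (Z := fun b => H.U (Z b) (sZ b)) u w (𝟙 _) (fun a => i' a) (fun a => r' a) hir
      (Category.id_comp _) hz (fun a => rfl) (fun a => hir' a)
  · intro L _ _ K
    have _ := K.add
    exact gen_fam (Z := fun b => H.U (Z b) (sZ b)) u w (𝟙 _) (fun a => i' a) (fun a => r' a)
      K.K hir (Category.id_comp _) hz (fun a => rfl) (fun a => hir' a)

end main

end Pool.Agent.MP_6e5bed_ag_WF
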