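import Pool.Agent.Lib.MP_6e5bed_ag_WF.UN
import Pool.Agent.Lib.MP_6e5bed_ag_WF.Gen
import Pool.Agent.Lib.MP_6e5bed_ag_WF.FinA
import Pool.Agent.Lib.MP_6e5bed_ag_WF.SumA
import Pool.Agent.Lib.MP_6e5bed_ag_SP.Final

set_option autoImplicit false
set_option linter.unusedVariables false

/-!
# MP_6e5bed_ag, functor form: the theorems for geometric motives
-/

noncomputable section

namespace Pool.Agent.MP_6e5bed_ag_WF

open CategoryTheory MonoidalCategory MvPolynomial Pool.Agent.MP_6e5bed_ag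
  Pool.Agent.MP_6e5bed_ag_NC Pool.Agent.MP_6e5bed_ag_GG
  Pool.Agent.MP_6e5bed_ag_WW Pool.Agent.MP_6e5bed_ag_UD
open Pool.Agent.MP_6e5bed_ag_PN hiding Ch
open Pool.Agent.MP_6e5bed_ag_Kf (K0Fun UDom Det SumOf Geo CenL)
open Pool.Agent.MP_6e5bed_ag_Pn (IsGr IsRGam)
open Pool.Agent.MP_6e5bed_ag_SP (DG Rep SmPr NCMot)

universe u

variable {ν : ℕ} {k : Type u} [Field k] {C : Type (u + 1)} [Category.{u + 1} C]
  [MonoidalCategory C] [SymmetricCategory C] [Preadditive C] [MonoidalPreadditive C] [Linear ℚ C]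
  (H : NCMot k C)

/-- Transport of `Det`. (`exists_udom`, `exists_k0fun` for the existence in the fourth property.) -/
theorem det_congr {n n' : ℕ} {p p' : Prop} {Z : ∀ (L : Type u) [Field L] [Algebra k L], Prop}
    {A A' : Prop} {P P' : ∀ (L : Type u) [Field L] [Algebra k L], K0Fun H.toNCData L → Prop}
    (h : Det H.toNCData n p Z A P) (hn : n ≤ n') (hp : p' → p) (hA : A' ↔ A)
    (hP : ∀ (L : Type u) [Field L] [Algebra k L] (K : K0Fun H.toNCData L), P' L K ↔ P L K) :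
    Det H.toNCData n' p' Z A' P' :=
  det_congrA H h hn hp hA hP

section main

variable {Γ : Type u} [Ring Γ] [Algebra k Γ]
  [Algebra (MvPolynomial (Fin (ν + 1)) k) Γ] [IsScalarTower k (MvPolynomial (Fin (ν + 1)) k) Γ]
  {𝒢 : ℕ → Submodule k Γ} (h : IsGr ν 𝒢) {M : C} (hM : SumOf H.toNCData ν 𝒢 M)

include h hM

/-- The theorem for families of morphisms of geometric motives. (`main_famW` for the family
indexed by `Option ι` which consists of the `r_a ≫ u_a ≫ i` and of `𝟙 - r ≫ i`; `dec_fam`,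
`gen_fam`, `det_congr`.) -/
theorem main_famM {ι : Type (u + 1)} {N : ι → C} (u : ∀ a, N a ⟶ M)
    (hN : ∀ a, Geo H.toNCData (N a)) :
    Det H.toNCData ν (Finite ι) (fun L => CenL ν k Γ L)
      (∃ (s : Finset ι) (v : ∀ a, M ⟶ N a), ∑ a ∈ s, v a ≫ u a = 𝟙 M)
      fun _ _ _ K => K.Gen u :=
  main_famMA H h hM u hN

/-- The nilpotence theorem. (`main_nilW`, `nil_sum`, `locNil_sum`, `det_congr`) -/
theorem main_nilM (f : End M) :
    Det H.toNCData ν True (fun L => CenL ν k Γ L) (IsNilpotent f) fun _ _ _ K => K.LocNil f := by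
  obtain ⟨T, _, _, X, sX, i, r, hX, hir⟩ := hM
  obtain ⟨g, hg⟩ : ∃ g : End (H.U X sX), g = r ≫ f ≫ i := ⟨_, rfl⟩
  refine det_congrA H (main_nilW H h hX sX g) le_rfl id (nil_sum hir f g hg) ?_
  intro L _ _ K
  have _ := K.add
  rw [hg]
  exact locNil_sum K.K hir f

omit h hM in
/-- A right inverse from a property of the functors, for one morphism. -/
private theorem Sum_sec (h : IsGr ν 𝒢) (hM : SumOf H.toNCData ν 𝒢 M) {N : C} (u : N ⟶ M)
    (hN : Geo H.toNCData N) :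
    [∃ v : M ⟶ N, v ≫ u = 𝟙 M,
      ∀ (L : Type u) [Field L] [Algebra k L] (K : K0Fun H.toNCData L), CenL ν k Γ L →
        Function.Surjective (K.K.map u).hom,
      ∃ (Ω : Type u) (_ : Field Ω) (_ : Algebra k Ω) (K : K0Fun H.toNCData Ω),
        UDom ν True k Ω ∧ Function.Surjective (K.K.map u).hom].TFAE := by
  have hf := main_famM H h hM (ι := PUnit.{u + 2}) (N := fun _ => N) (fun _ => u)
    (fun _ => hN)
  have hgen : ∀ (L : Type u) [Field L] [Algebra k L] (K : K0Fun H.toNCData L),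
      K.Gen (ι := PUnit.{u + 2}) (N := fun _ => N) (fun _ => u) ↔
        Function.Surjective (K.K.map u).hom := by
    intro L _ _ K
    unfold K0Fun.Gen
    rw [ciSup_const, LinearMap.range_eq_top]
  have hdec : (∃ (s : Finset PUnit.{u + 2}) (v : ∀ a : PUnit.{u + 2}, M ⟶ N),
      ∑ a ∈ s, v a ≫ u = 𝟙 M) ↔ ∃ v : M ⟶ N, v ≫ u = 𝟙 M := by
    constructor
    · rintro ⟨s, v, hv⟩
      exact ⟨∑ a ∈ s, v a, by rw [Preadditive.sum_comp, hv]⟩
    · rintro ⟨v, hv⟩
      refine ⟨{PUnit.unit}, fun _ => v, ?_⟩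
      rw [Finset.sum_singleton, hv]
  have h2 := det_congrA H (P' := fun _ _ _ K => Function.Surjective (K.K.map u).hom) hf le_rfl
    (p' := True) (fun _ => inferInstance) hdec.symm
    (fun L _ _ K => (hgen L K).symm)
  unfold Det at h2
  tfae_have 1 ↔ 2 := h2.out 0 2
  tfae_have 1 ↔ 3 := h2.out 0 3
  tfae_finish

/-- The theorem on isomorphisms. (`main_famM` for the family `u` indexed by `PUnit`: there is
`v : M ⟶ N` with `v ≫ u = 𝟙`, and `v` is bijective on the `K_0(-_L)_ℚ` in question, so by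
`main_famM` for `v` there is `w` with `w ≫ v = 𝟙`; as in `main_isoU` in `UD/UMain.lean`.) -/
theorem main_isoM {ν' : ℕ} {Γ' : Type u} [Ring Γ'] [Algebra k Γ']
    [Algebra (MvPolynomial (Fin (ν' + 1)) k) Γ']
    [IsScalarTower k (MvPolynomial (Fin (ν' + 1)) k) Γ'] {𝒢' : ℕ → Submodule k Γ'} {N : C}
    (u : N ⟶ M) (h' : IsGr ν' 𝒢') (hN : SumOf H.toNCData ν' 𝒢' N) :
    Det H.toNCData (max ν ν') True (fun L => CenL ν k Γ L ∨ CenL ν' k Γ' L) (IsIso u)
      fun _ _ _ K => K.Bij u := by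
  have gM : Geo H.toNCData M := ⟨ν, Γ, _, _, _, ‹_›, 𝒢, h, hM⟩
  have gN : Geo H.toNCData N := ⟨ν', Γ', _, _, _, ‹_›, 𝒢', h', hN⟩
  have key : ∀ {L : Type u} [Field L] [Algebra k L] (K : K0Fun H.toNCData L) (v : M ⟶ N),
      v ≫ u = 𝟙 M → K.Bij u → Function.Surjective (K.K.map v).hom := by
    intro L _ _ K v hv hu x
    refine ⟨(K.K.map u).hom x, hu.1 ?_⟩
    have h1 : K.K.map v ≫ K.K.map u = 𝟙 _ := by rw [← K.K.map_comp, hv, K.K.map_id]
    have h2 := LinearMap.congr_fun (congrArg ModuleCat.Hom.hom h1) ((K.K.map u).hom x)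
    exact h2
  have fin : (∃ v : M ⟶ N, v ≫ u = 𝟙 M ∧ ∃ w : N ⟶ M, w ≫ v = 𝟙 N) → IsIso u := by
    rintro ⟨v, hv, w, hw⟩
    have h1 : w = u := by
      calc w = w ≫ v ≫ u := by rw [hv, Category.comp_id]
        _ = u := by rw [← Category.assoc, hw, Category.id_comp]
    rw [h1] at hw
    exact ⟨⟨v, hw, hv⟩⟩
  unfold Det
  tfae_have 1 → 2 := by
    intro hu L _ _ K
    have _ : IsIso (K.K.map u) := inferInstance
    exact ConcreteCategory.bijective_of_isIso (K.K.map u)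
  tfae_have 2 → 3 := fun h2 L _ _ K _ => h2 L K
  tfae_have 2 → 4 := by
    intro h2
    obtain ⟨Ω, _, _, hΩ⟩ := exists_udom (max ν ν') True k
    obtain ⟨K⟩ := exists_k0fun H Ω
    exact ⟨Ω, _, _, K, hΩ, h2 Ω K⟩
  tfae_have 3 → 1 := by
    intro h3
    have a1 := (Sum_sec H h hM u gN).out 0 1
    obtain ⟨v, hv⟩ := a1.2 fun L _ _ K hL => (h3 L K (Or.inl hL)).2
    have a2 := (Sum_sec H h' hN v gM).out 0 1
    exact fin ⟨v, hv, a2.2 fun L _ _ K hL => key K v hv (h3 L K (Or.inr hL))⟩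
  tfae_have 4 → 1 := by
    rintro ⟨Ω, _, _, K, hΩ, h4⟩
    have a1 := (Sum_sec H h hM u gN).out 0 2
    obtain ⟨v, hv⟩ := a1.2 ⟨Ω, _, _, K, udom_mono (le_max_left ν ν') id hΩ, h4.2⟩
    have a2 := (Sum_sec H h' hN v gM).out 0 2
    exact fin ⟨v, hv, a2.2
      ⟨Ω, _, _, K, udom_mono (le_max_right ν ν') id hΩ, key K v hv h4⟩⟩
  tfae_finish

/-- The criterion for Kimura-finiteness. (1 → 2, 3: the family `𝟙 M` indexed by `PUnit`; 2 → 1 and
3 → 1: `main_famM` and `opKF_of_sum` (`CV/KFin.lean`), `opKF_of_kimuraFinite`,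
`kimuraFinite_of_opKF` with `H.karoubi`; the dual of `M` as in `SP/Final.lean`.) -/
theorem main_kfM : [KimuraFinite M,
    ∃ (ι : Type (u + 1)) (N : ι → C) (u : ∀ a, N a ⟶ M),
      (∀ a, Geo H.toNCData (N a) ∧ KimuraFinite (N a)) ∧
      ∀ (L : Type u) [Field L] [Algebra k L] (K : K0Fun H.toNCData L), CenL ν k Γ L → K.Gen u,
    ∃ (ι : Type (u + 1)) (N : ι → C) (u : ∀ a, N a ⟶ M) (Ω : Type u) (_ : Field Ω)
      (_ : Algebra k Ω) (K : K0Fun H.toNCData Ω),
      (∀ a, Geo H.toNCData (N a) ∧ KimuraFinite (N a)) ∧ UDom ν (Finite ι) k Ω ∧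
        K.Gen u].TFAE := by
  have gM : Geo H.toNCData M := ⟨ν, Γ, _, _, _, ‹_›, 𝒢, h, hM⟩
  have hid : ∀ (L : Type u) [Field L] [Algebra k L] (K : K0Fun H.toNCData L),
      K.Gen (ι := PUnit.{u + 2}) (N := fun _ => M) (fun _ => 𝟙 M) := by
    intro L _ _ K
    unfold K0Fun.Gen
    rw [ciSup_const, LinearMap.range_eq_top, K.K.map_id]
    exact fun x => ⟨x, rfl⟩
  have fin : ∀ {ι : Type (u + 1)} {N : ι → C} (u : ∀ a, N a ⟶ M),
      (∀ a, KimuraFinite (N a)) →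
      (∃ (s : Finset ι) (v : ∀ a, M ⟶ N a), ∑ a ∈ s, v a ≫ u a = 𝟙 M) → KimuraFinite M := by
    rintro ι N u hK ⟨s, v, hv⟩
    obtain ⟨hM'⟩ := H.exists_leftDual M
    have _ := H.karoubi
    refine kimuraFinite_of_opKF (opKF_of_sum (M' := ᘁM) (n := s.card)
      (fun l => N (s.equivFin.symm l)) (fun l => opKF_of_kimuraFinite (hK _))
      (fun l => v (s.equivFin.symm l)) (fun l => u (s.equivFin.symm l)) ?_)
    rw [← hv, Equiv.sum_comp s.equivFin.symm (fun a : s => v a ≫ u a)]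
    exact (Finset.sum_coe_sort s (fun a => v a ≫ u a)).symm
  tfae_have 1 → 2 := fun hK => ⟨PUnit.{u + 2}, fun _ => M, fun _ => 𝟙 M,
    fun _ => ⟨gM, hK⟩, fun L _ _ K _ => hid L K⟩
  tfae_have 1 → 3 := by
    intro hK
    obtain ⟨Ω, _, _, hΩ⟩ := exists_udom ν (Finite PUnit.{u + 2}) k
    obtain ⟨K⟩ := exists_k0fun H Ω
    exact ⟨PUnit.{u + 2}, fun _ => M, fun _ => 𝟙 M, Ω, _, _, K, fun _ => ⟨gM, hK⟩, hΩ, hid Ω K⟩
  tfae_have 2 → 1 := by
    rintro ⟨ι, N, u, hN, hu⟩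
    have hf := main_famM H h hM u fun a => (hN a).1
    unfold Det at hf
    have a1 := hf.out 0 2
    exact fin u (fun a => (hN a).2) (a1.2 fun L _ _ K hL => hu L K hL)
  tfae_have 3 → 1 := by
    rintro ⟨ι, N, u, Ω, _, _, K, hN, hΩ, hu⟩
    have hf := main_famM H h hM u fun a => (hN a).1
    unfold Det at hf
    have a1 := hf.out 0 3
    exact fin u (fun a => (hN a).2) (a1.2 ⟨Ω, _, _, K, hΩ, hu⟩)
  tfae_finish

omit h hM [MonoidalPreadditive C] [Linear ℚ C] in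
private theorem Sum_alt_map {D : Type (u + 1)} [Category.{u + 1} D] [MonoidalCategory D]
    [SymmetricCategory D] [Preadditive D] (F : D ⥤ C) [F.Braided] [F.Additive]
    {X : D} {e : X ⟶ X} {r : ℕ} (h : altSum X r ≫ tmap e r = 0) :
    altSum (F.obj X) r ≫ tmap (F.map e) r = 0 := by
  rw [← gSum_coe] at h ⊢
  rw [← map_kill_iff, h, F.map_zero]

/-- Finite dimensional Grothendieck groups. (`M` is a direct summand of `H.U X sX`;
`K.K.obj M` is isomorphic to the image of the projector `r ≫ i`, so `fin_range_iff` and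
`altKill_of_fin_bc` for the class `e` of `r ≫ i` in `SP k`, `T = TT A`; the projector on the motive
`H.U X sX` is even: `H.F` is braided (`SP/MMon.lean`), `ghom` and `H.fhom`, `H.exists_iso`,
`altKill_iso`; then `isEven_of_altKill`.) -/
theorem main_finM (Ω : Type u) [Field Ω] [Algebra k Ω] (K : K0Fun H.toNCData Ω)
    (hc : IsAlgClosed Ω)
    (hk : ∀ m : ℕ, ∃ t : Fin m → Ω, AlgebraicIndependent (⊥ : Subfield Ω) t)
    (hf : Module.Finite ℚ (K.K.obj M)) : IsEven M := by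
  obtain ⟨T, _, _, X, sX, i, r, hX, hir⟩ := hM
  obtain ⟨A, ⟨s⟩, hA⟩ := exists_rep h hX
  have hs : Smooth (TT A) := sX.smooth s
  have hp : Proper (TT A) := sX.proper s
  have hcoh : CohD (TT A) := ⟨T, _, _, X, ⟨ν, Γ, _, _, _, ‹_›, 𝒢, h, hX⟩, ⟨s⟩⟩
  obtain ⟨y, hy⟩ := (ghom H sX sX s s).surjective (r ≫ i)
  -- the class is a projector
  have hyy : K0Q.comp hp y y = y := by
    refine (ghom H sX sX s s).injective ?_
    rw [ghom_comp H sX sX sX s s s hp, hy, Category.assoc, ← Category.assoc i, hir,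
      Category.id_comp]
  -- the image is finite dimensional
  have hfin : Module.Finite ℚ (LinearMap.range (K.K.map (r ≫ i)).hom) := by
    have h1 : LinearMap.range (K.K.map (r ≫ i)).hom ≤ LinearMap.range (K.K.map i).hom := by
      rw [K.K.map_comp]
      rintro _ ⟨x, rfl⟩
      exact ⟨(K.K.map r).hom x, rfl⟩
    have h2 : Module.Finite ℚ (LinearMap.range (K.K.map i).hom) := inferInstance
    exact Submodule.finiteDimensional_of_le h1
  have hfin' := (fin_range_iff H K sX s hp hy).1 hfin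
  obtain ⟨n, hn⟩ := altKill_of_fin_bc (⟨TT A, hs, hp⟩ : SP k) hcoh Ω hc hk y hyy hfin'
  -- the isomorphism with the object of `SP k`
  let B : SP k := ⟨TT A, hs, hp⟩
  let φ : H.F.obj B ≅ H.U X sX :=
    { hom := ghom H (MP_6e5bed_ag_SP.smPr_of B) sX (MP_6e5bed_ag_SP.repOf B.alg) s (K0Q.one hs)
      inv := ghom H sX (MP_6e5bed_ag_SP.smPr_of B) s (MP_6e5bed_ag_SP.repOf B.alg) (K0Q.one hs)
      hom_inv_id := by
        refine (ghom_comp H _ _ _ _ _ _ hp _ _).symm.trans ?_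
        rw [K0Q.comp_one hs hp]
        exact ghom_one H _ _ hs hp
      inv_hom_id := by
        refine (ghom_comp H _ _ _ _ _ _ hp _ _).symm.trans ?_
        rw [K0Q.comp_one hs hp]
        exact ghom_one H _ _ hs hp }
  have hφ : φ.inv ≫ H.F.map (X := B) (Y := B) y ≫ φ.hom = r ≫ i := by
    rw [← hy]
    change ghom H sX (MP_6e5bed_ag_SP.smPr_of B) s (MP_6e5bed_ag_SP.repOf B.alg) (K0Q.one hs) ≫
      ghom H (MP_6e5bed_ag_SP.smPr_of B) (MP_6e5bed_ag_SP.smPr_of B)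
        (MP_6e5bed_ag_SP.repOf B.alg) (MP_6e5bed_ag_SP.repOf B.alg) y ≫
      ghom H (MP_6e5bed_ag_SP.smPr_of B) sX (MP_6e5bed_ag_SP.repOf B.alg) s (K0Q.one hs) = _
    rw [← ghom_comp H _ _ _ _ _ _ hp, K0Q.comp_one hs hp, ← ghom_comp H _ _ _ _ _ _ hp,
      K0Q.one_comp hs hp]
  have h3 : AltKill (H.F.map (X := B) (Y := B) y) := ⟨n, Sum_alt_map H.F hn⟩
  have h4 := altKill_iso φ h3
  rw [hφ] at h4
  exact isEven_of_altKill hir h4

end main

end Pool.Agent.MP_6e5bed_ag_WF
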