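import Pool.Agent.Lib.MP_6e5bed_ag_WW.WDef

set_option autoImplicit false
set_option linter.unusedVariables false

/-!
# MP_6e5bed_ag, functor form: transcendence degrees
-/

namespace Pool.Agent.MP_6e5bed_ag_WF

open MvPolynomial Pool.Agent.MP_6e5bed_ag_Pn

universe u

/-- A field of transcendence degree at most `n` over `k` embeds in every algebraically closed field
over `k` which contains `n` algebraically independent elements. (As `exists_emb` in
`UD/Emb.lean`.) -/
theorem exists_emb_n {k L Ω : Type u} [Field k] [Field L] [Algebra k L] [Field Ω] [Algebra k Ω]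
    [IsAlgClosed Ω] {n : ℕ} (hL : Algebra.trdeg k L ≤ n) {t : Fin n → Ω}
    (ht : AlgebraicIndependent k t) : Nonempty (L →ₐ[k] Ω) := by
  obtain ⟨s, hs⟩ := exists_isTranscendenceBasis k L
  have h1 : Cardinal.mk s ≤ (n : Cardinal.{u}) := by
    rw [hs.cardinalMk_eq_trdeg]
    exact hL
  have h2 : Cardinal.lift.{0} (Cardinal.mk s) ≤ Cardinal.lift.{u} (Cardinal.mk (Fin n)) := by
    rw [Cardinal.mk_fin, Cardinal.lift_natCast, Cardinal.lift_uzero]
    exact h1
  obtain ⟨e⟩ := Cardinal.lift_mk_le'.1 h2
  have ht' : AlgebraicIndependent k (t ∘ e) := ht.comp e e.injective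
  have halg := hs.isAlgebraic_field
  let φ : IntermediateField.adjoin k (Set.range ((↑) : s → L)) →ₐ[k] Ω :=
    (IntermediateField.val _).comp
      ((hs.1.aevalEquivField.symm.trans ht'.aevalEquivField).toAlgHom)
  obtain ⟨ψ, -⟩ := IsAlgClosed.surjective_domRestrict_of_isAlgebraic (K := k) (M := Ω)
    (E := L) φ
  exact ⟨ψ⟩

/-- A field generated by `n + 1` elements one of which is `1` has transcendence degree at most
`n`. -/
private theorem TrN_gen {n : ℕ} {k F : Type u} [Field k] [Field F] [Algebra k F]
    (a : Fin (n + 1) → F) (j : Fin (n + 1)) (haj : a j = 1)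
    (hgen : IntermediateField.adjoin k (Set.range a) = ⊤) : Algebra.trdeg k F ≤ n := by
  classical
  obtain ⟨T, hT⟩ : ∃ T : Finset F, T = (Finset.univ.erase j).image a := ⟨_, rfl⟩
  have hcard : Cardinal.mk (T : Set F) ≤ (n : Cardinal.{u}) := by
    have h1 : T.card ≤ n := by
      rw [hT]
      refine Finset.card_image_le.trans ?_
      rw [Finset.card_erase_of_mem (Finset.mem_univ j), Finset.card_univ, Fintype.card_fin]
      exact le_rfl
    have h2 : Cardinal.mk (T : Set F) = (T.card : Cardinal.{u}) := Cardinal.mk_coe_finset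
    rw [h2]
    exact_mod_cast h1
  have htop : ∀ x : F, x ∈ IntermediateField.adjoin k (T : Set F) := by
    intro x
    have hle : IntermediateField.adjoin k (Set.range a) ≤
        IntermediateField.adjoin k (T : Set F) := by
      rw [IntermediateField.adjoin_le_iff]
      rintro _ ⟨i, rfl⟩
      by_cases hi : i = j
      · rw [hi, haj]
        exact one_mem _
      · refine IntermediateField.subset_adjoin _ _ ?_
        rw [hT]
        exact Finset.mem_coe.2 (Finset.mem_image_of_mem a
          (Finset.mem_erase.2 ⟨hi, Finset.mem_univ i⟩))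
    rw [hgen] at hle
    exact hle IntermediateField.mem_top
  have halg : Algebra.IsAlgebraic (Algebra.adjoin k (T : Set F)) F := ⟨fun x => by
    obtain ⟨r, hr, s, hs, hx⟩ := IntermediateField.mem_adjoin_iff_div.1 (htop x)
    rw [hx, div_eq_mul_inv]
    have h1 : IsAlgebraic (Algebra.adjoin k (T : Set F)) r :=
      isAlgebraic_algebraMap (⟨r, hr⟩ : Algebra.adjoin k (T : Set F))
    have h2 : IsAlgebraic (Algebra.adjoin k (T : Set F)) s :=
      isAlgebraic_algebraMap (⟨s, hs⟩ : Algebra.adjoin k (T : Set F))
    exact h1.mul h2.inv⟩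
  exact (Algebra.IsAlgebraic.trdeg_le_cardinalMk k (T : Set F)).trans hcard

/-- The centres of the residue algebras have transcendence degree at most `n`. (`F` is generated by
`n + 1` elements one of which is `1`; `Q` is finite over `F` since `Γ` is finite over the polynomial
ring; the image of `F` in `Q` is contained in the range of `e`, so there is a homomorphism `F → L`
over `k` with `L` finite over `F`.) -/
theorem trdeg_cenL {n : ℕ} {k Γ : Type u} [Field k] [Ring Γ]
    [Algebra (MvPolynomial (Fin (n + 1)) k) Γ] [Module.Finite (MvPolynomial (Fin (n + 1)) k) Γ]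
    (L : Type u) [Field L] [Algebra k L] (h : CenL n k Γ L) : Algebra.trdeg k L ≤ n := by
  classical
  obtain ⟨F, Q, iF, iFk, iQ, iFQ, iS, a, j, π, e, haj, hgen, hπ, hspan, he1, he2⟩ := h
  have hF : Algebra.trdeg k F ≤ n := TrN_gen a j haj hgen
  have hcen : ∀ f : F, ∃ l : L, e l = algebraMap F Q f := fun f =>
    (he2 _).2 fun x => Algebra.commutes f x
  choose ψ hψ using hcen
  have hinj : Function.Injective e := e.injective
  let Ψ : F →+* L :=
    { toFun := ψ
      map_one' := hinj (by rw [hψ, map_one, map_one])
      map_mul' := fun x y => hinj (by rw [hψ, map_mul, map_mul, hψ, hψ])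
      map_zero' := hinj (by rw [hψ, map_zero, map_zero])
      map_add' := fun x y => hinj (by rw [hψ, map_add, map_add, hψ, hψ]) }
  let _ : Algebra F L := Ψ.toAlgebra
  have : IsScalarTower k F L := IsScalarTower.of_algebraMap_eq fun c => hinj (by
    change e (algebraMap k L c) = e (ψ (algebraMap k F c))
    rw [he1, hψ])
  have hQ : Module.Finite F Q := by
    obtain ⟨S, hS⟩ := Module.Finite.fg_top (R := MvPolynomial (Fin (n + 1)) k) (M := Γ)
    refine ⟨⟨S.image π, ?_⟩⟩
    rw [eq_top_iff, ← hspan, Submodule.span_le]
    rintro _ ⟨γ, rfl⟩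
    have hγ : γ ∈ Submodule.span (MvPolynomial (Fin (n + 1)) k) (S : Set Γ) := by
      rw [hS]
      trivial
    induction hγ using Submodule.span_induction with
    | mem x hx =>
      exact Submodule.subset_span (Finset.mem_coe.2 (Finset.mem_image_of_mem π hx))
    | zero =>
      rw [map_zero]
      exact Submodule.zero_mem _
    | add x y _ _ h1 h2 =>
      rw [map_add]
      exact Submodule.add_mem _ h1 h2
    | smul p x _ h1 =>
      rw [Algebra.smul_def, map_mul, hπ, ← Algebra.smul_def]
      exact Submodule.smul_mem _ _ h1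
  let E : L →ₗ[F] Q :=
    { toFun := e
      map_add' := map_add e
      map_smul' := fun f l => by
        change e (ψ f * l) = f • e l
        rw [map_mul, hψ, Algebra.smul_def] }
  have : Module.Finite F L := Module.Finite.of_injective E hinj
  have : Algebra.IsAlgebraic F L := Algebra.IsAlgebraic.of_finite F L
  have h1 := trdeg_add_eq k F (A := L)
  rw [trdeg_eq_zero (R := F) (A := L), add_zero] at h1
  rw [← h1]
  exact hF

end Pool.Agent.MP_6e5bed_ag_WF
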