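import Pool.Agent.Lib.MP_6e5bed_ag_WF.Ex
import Pool.Agent.Lib.MP_6e5bed_ag_WF.TrN

set_option autoImplicit false
set_option linter.unusedVariables false

/-!
# MP_6e5bed_ag, functor form: the theorems for the motives of coherent algebras
-/

noncomputable section

namespace Pool.Agent.MP_6e5bed_ag_WF

open CategoryTheory MonoidalCategory MvPolynomial Pool.Agent.MP_6e5bed_ag
  Pool.Agent.MP_6e5bed_ag_NC Pool.Agent.MP_6e5bed_ag_GG
  Pool.Agent.MP_6e5bed_ag_WW Pool.Agent.MP_6e5bed_ag_UD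
open Pool.Agent.MP_6e5bed_ag_PN hiding Ch
open Pool.Agent.MP_6e5bed_ag_Kf (K0Fun UDom Det)
open Pool.Agent.MP_6e5bed_ag_Pn (IsGr IsRGam CenL CohAlg)
open Pool.Agent.MP_6e5bed_ag_SP (DG Rep SmPr NCMot)

universe u

theorem exists_udom (n : ℕ) (p : Prop) (k : Type u) [Field k] : ∃ (Ω : Type u) (_ : Field Ω)
    (_ : Algebra k Ω), UDom n p k Ω := by
  obtain ⟨Ω, _, _, h1, h2⟩ := exists_ud k
  exact ⟨Ω, _, _, h1, Or.inl (h2 n)⟩

variable {ν : ℕ} {k : Type u} [Field k] {C : Type (u + 1)} [Category.{u + 1} C]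
  [MonoidalCategory C] [SymmetricCategory C] [Preadditive C] [MonoidalPreadditive C] [Linear ℚ C]
  (H : NCMot k C) {Γ : Type u} [Ring Γ] [Algebra k Γ]
  [Algebra (MvPolynomial (Fin (ν + 1)) k) Γ] [IsScalarTower k (MvPolynomial (Fin (ν + 1)) k) Γ]
  {𝒢 : ℕ → Submodule k Γ} (h : IsGr ν 𝒢)
  {T : Type u} [Ring T] [Algebra k T] {X : DG k T} (hX : IsRGam ν 𝒢 X) (sX : SmPr X)

include h hX

/-- The theorem for families. (As `main_famU` in `UD/UMain.lean`, with `gen_iff` instead of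
`uGen_iff`, `exists_k0fun` for the existence of the functors; 4 → 1: in the first case of `UDom` one
proves 4 → 3 with `JU_of_field` (`UD/Desc.lean`) and the embedding given by `exists_emb_n`,
`trdeg_cenL`; in the second case `core_abs` as in `core_dom`.) -/
theorem main_famW {ι : Type (u + 1)} {S : ι → Type u} [∀ a, Ring (S a)] [∀ a, Algebra k (S a)]
    {Y : ∀ a, DG k (S a)} (hY : ∀ a, CohAlg (Y a)) (sY : ∀ a, SmPr (Y a))
    (u : ∀ a, H.U (Y a) (sY a) ⟶ H.U X sX) :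
    Det H.toNCData ν (Finite ι) (fun L => CenL ν k Γ L)
      (∃ (t : Finset ι) (v : ∀ a, H.U X sX ⟶ H.U (Y a) (sY a)), ∑ a ∈ t, v a ≫ u a = 𝟙 _)
      fun _ _ _ K => K.Gen u := by
  have hfin : Module.Finite (MvPolynomial (Fin (ν + 1)) k) Γ := h.fin
  obtain ⟨A, ⟨s⟩, hA⟩ := exists_rep h hX
  choose n A' hA' using fun a => exists_repA (hY a)
  have r : ∀ a, Rep (Y a) (TT (A' a)) := fun a => (hA' a).some
  have hs : Smooth (TT A) := sX.smooth s
  have hp : Proper (TT A) := sX.proper s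
  have hs' : ∀ a, Smooth (TT (A' a)) := fun a => (sY a).smooth (r a)
  have hp' : ∀ a, Proper (TT (A' a)) := fun a => (sY a).proper (r a)
  have hc : CohD (TT A) := ⟨T, _, _, X, ⟨ν, Γ, _, _, _, ‹_›, 𝒢, h, hX⟩, ⟨s⟩⟩
  have hc' : ∀ a, CohD (TT (A' a)) := fun a => ⟨S a, _, _, Y a, hY a, ⟨r a⟩⟩
  choose y hy using fun a => (ghom H (sY a) sX (r a) s).surjective (u a)
  have h1 := dec_iff H sX s sY r u hs hp hp' hy
  have h2 := fun (L : Type u) [Field L] [Algebra k L] (K : K0Fun H.toNCData L) =>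
    gen_iff H K sX s sY r hp' hy
  have hcen : (∀ (L : Type u) [Field L] [Algebra k L], CenL ν k Γ L →
      ∀ x : K0Q (ring k L) (TT A), x ∈ JU (ring k L) hp' y) →
      ∃ (t : Finset ι) (v : ∀ a, H.U X sX ⟶ H.U (Y a) (sY a)), ∑ a ∈ t, v a ≫ u a = 𝟙 _ := by
    intro h3
    refine h1.2 (coreWC k A A' hs hs' hp' y fun m g => ?_)
    exact cen_hyp (P := fun L _ _ => ∀ x : K0Q (ring k L) (TT A), x ∈ JU (ring k L) hp' y) hA
      (fun L _ _ hL => h3 L hL) g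
  unfold Det
  tfae_have 1 → 2 := by
    intro h3 L _ _ K
    exact (h2 L K).2 (mem_JU_of_one hp' y hs hp (h1.1 h3))
  tfae_have 2 → 3 := fun h3 L _ _ K _ => h3 L K
  tfae_have 3 → 1 := by
    intro h3
    refine hcen fun L _ _ hL => ?_
    obtain ⟨K⟩ := exists_k0fun H L
    exact (h2 L K).1 (h3 L K hL)
  tfae_have 2 → 4 := by
    intro h3
    obtain ⟨Ω, _, _, hΩ⟩ := exists_udom ν (Finite ι) k
    obtain ⟨K⟩ := exists_k0fun H Ω
    exact ⟨Ω, _, _, K, hΩ, h3 Ω K⟩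
  tfae_have 4 → 1 := by
    rintro ⟨Ω, _, _, K, ⟨hΩ, ⟨t, ht⟩ | ⟨hf, ht⟩⟩, h4⟩
    · refine hcen fun L _ _ hL => ?_
      obtain ⟨j⟩ := exists_emb_n (Ω := Ω) (trdeg_cenL L hL) ht
      exact JU_of_field hp' y j ((h2 Ω K).1 h4)
    · exact h1.2 (core_abs hc hc' hs hs' hp' y Ω ht ((h2 Ω K).1 h4))
  tfae_finish

/-- The nilpotence theorem. (As `main_nil` in `UD/UMain.lean`, with `locNil_iff` instead of
`uNil_iff`; 4 → 3 in the first case of `UDom` with `mem_NU_of_field` in `UD/NilK.lean`, 4 → 1 in the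
second case with `nil_abs`.) -/
theorem main_nilW (f : End (H.U X sX)) :
    Det H.toNCData ν True (fun L => CenL ν k Γ L) (IsNilpotent f) fun _ _ _ K => K.LocNil f := by
  have hfin : Module.Finite (MvPolynomial (Fin (ν + 1)) k) Γ := h.fin
  obtain ⟨A, ⟨s⟩, hA⟩ := exists_rep h hX
  have hs : Smooth (TT A) := sX.smooth s
  have hp : Proper (TT A) := sX.proper s
  have hc : CohD (TT A) := ⟨T, _, _, X, ⟨ν, Γ, _, _, _, ‹_›, 𝒢, h, hX⟩, ⟨s⟩⟩
  obtain ⟨y, hy⟩ := (ghom H sX sX s s).surjective f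
  have h1 : ∀ n : ℕ, ghom H sX sX s s ((act hp y (TT A) ^ n) (K0Q.one hs)) = f ^ n := by
    intro n
    induction n with
    | zero => exact ghom_one H sX s hs hp
    | succ n ih =>
      rw [pow_succ', Module.End.mul_apply, pow_succ']
      refine Eq.trans (ghom_comp H sX sX sX s s s hp _ y) ?_
      rw [ih, hy]
      rfl
  have h2 : IsNilpotent f ↔ K0Q.one hs ∈ NU hp y (TT A) := by
    rw [mem_NU]
    refine exists_congr fun n => ?_
    rw [← h1 n]
    exact (ghom H sX sX s s).map_eq_zero_iff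
  have h3 := fun (L : Type u) [Field L] [Algebra k L] (K : K0Fun H.toNCData L) =>
    locNil_iff H K sX s hp hy
  have hcen : (∀ (L : Type u) [Field L] [Algebra k L], CenL ν k Γ L →
      ∀ x : K0Q (ring k L) (TT A), x ∈ NU hp y (ring k L)) → IsNilpotent f := by
    intro h4
    refine h2.2 (nil_C A hs hp y fun m g => ?_)
    exact cen_hyp (P := fun L _ _ => ∀ x : K0Q (ring k L) (TT A), x ∈ NU hp y (ring k L)) hA
      (fun L _ _ hL => h4 L hL) g
  unfold Det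
  tfae_have 1 → 2 := by
    intro h4 L _ _ K
    obtain ⟨n, hn⟩ := mem_NU.1 (h2.1 h4)
    refine (h3 L K).2 fun x => mem_NU.2 ⟨n, ?_⟩
    rw [← act_pow_one hs hp y x n, hn, map_zero]
  tfae_have 2 → 3 := fun h4 L _ _ K _ => h4 L K
  tfae_have 3 → 1 := by
    intro h4
    refine hcen fun L _ _ hL => ?_
    obtain ⟨K⟩ := exists_k0fun H L
    exact (h3 L K).1 (h4 L K hL)
  tfae_have 2 → 4 := by
    intro h4
    obtain ⟨Ω, _, _, hΩ⟩ := exists_udom ν True k
    obtain ⟨K⟩ := exists_k0fun H Ω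
    exact ⟨Ω, _, _, K, hΩ, h4 Ω K⟩
  tfae_have 4 → 1 := by
    rintro ⟨Ω, _, _, K, ⟨hΩ, ⟨t, ht⟩ | ⟨-, ht⟩⟩, h4⟩
    · refine hcen fun L _ _ hL => ?_
      obtain ⟨j⟩ := exists_emb_n (Ω := Ω) (trdeg_cenL L hL) ht
      exact mem_NU_of_field hp y j ((h3 Ω K).1 h4)
    · exact h2.2 (nil_abs hc hs hp y Ω ht ((h3 Ω K).1 h4))
  tfae_finish

end Pool.Agent.MP_6e5bed_ag_WF
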